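import Mathlib
set_option autoImplicit false

/-!
Rational functions which are real at infinitely many points of `P⁻¹(ℝ)`.
-/

namespace Pool.Agent.Run7.h153.DG

open Polynomial

/-- No critical value of `P` is the complex conjugate of a critical value (in particular no critical
value is real). -/
def NoConj (P : ℂ[X]) : Prop :=
  ∀ ξ η : ℂ, (derivative P).eval ξ = 0 → (derivative P).eval η = 0 →
    P.eval ξ ≠ (starRingEnd ℂ) (P.eval η)

/-- every polynomial is integral over `ℂ[P]` -/
theorem isIntegralElem_comp {P : ℂ[X]} (hP : 0 < P.natDegree) (Y : ℂ[X]) :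
    (compRingHom P).IsIntegralElem Y := by
  have hX : (compRingHom P).IsIntegralElem (X : ℂ[X]) := by
    set a := P.leadingCoeff with ha
    have ha0 : a ≠ 0 := leadingCoeff_ne_zero.2 (ne_zero_of_natDegree_gt hP)
    -- the polynomial `(P(T) - t) / a`
    refine ⟨C (C a⁻¹) * (P.map C - C X), ?_, ?_⟩
    · have h1 : (P.map (C : ℂ →+* ℂ[X]) - C X).natDegree = P.natDegree := by
        rw [natDegree_sub_C, natDegree_map_eq_of_injective C_injective]
      have h2 : (P.map (C : ℂ →+* ℂ[X]) - C X).leadingCoeff = C a := by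
        rw [leadingCoeff, h1, coeff_sub, coeff_map, coeff_C_of_ne_zero hP.ne', sub_zero]
        rfl
      rw [Monic, leadingCoeff_mul, leadingCoeff_C, h2, ← C_mul, inv_mul_cancel₀ ha0, C_1]
    · rw [eval₂_mul, eval₂_sub, eval₂_C, eval₂_C, eval₂_map]
      have h3 : (compRingHom P).comp C = C := by
        ext x
        simp
      rw [h3, eval₂_C_X]
      simp
  induction Y using Polynomial.induction_on' with
  | add p q hp hq => exact RingHom.IsIntegralElem.add _ hp hq
  | monomial n a =>
    rw [← C_mul_X_pow_eq_monomial]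
    refine RingHom.IsIntegralElem.mul _ ?_ ?_
    · have := RingHom.isIntegralElem_map (f := compRingHom P) (x := C a)
      simpa using this
    · induction n with
      | zero =>
        rw [pow_zero]
        exact RingHom.isIntegralElem_one _
      | succ n ih =>
        rw [pow_succ]
        exact RingHom.IsIntegralElem.mul _ ih hX

theorem eval_conj (G : ℂ[X]) (β : ℂ) : (G.map (starRingEnd ℂ)).eval ((starRingEnd ℂ) β) =
    (starRingEnd ℂ) (G.eval β) := by
  rw [eval_map, eval₂_at_apply]

/-- the quotient `w / q` is a polynomial, if it takes at infinitely many points `β` values which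
satisfy a monic equation with coefficients that are polynomials in `β` -/
theorem dvd_of_monic {w q : ℂ[X]} (hq : q ≠ 0) (p : ℂ[X][X]) (hp : p.Monic) {S : Set ℂ}
    (hS : S.Infinite) (h : ∀ β ∈ S, ∃ Y : ℂ, w.eval β = q.eval β * Y ∧
      (p.map (evalRingHom β)).eval Y = 0) : q ∣ w := by
  have h1 : (scaleRoots p q).eval w = 0 := by
    refine eq_zero_of_infinite_isRoot _ (hS.mono fun β hβ => ?_)
    obtain ⟨Y, hY, hp0⟩ := h β hβ
    show eval β ((scaleRoots p q).eval w) = 0
    have h2 : eval β ((scaleRoots p q).eval w) =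
        (scaleRoots p q).eval₂ (evalRingHom β) (evalRingHom β w) := by
      rw [eval₂_at_apply]
      rfl
    rw [h2, coe_evalRingHom, hY]
    have h3 := scaleRoots_eval₂_mul (p := p) (evalRingHom β) (r := Y) (s := q)
    rw [coe_evalRingHom] at h3
    rw [h3, ← eval_map, hp0, mul_zero]
  -- the fraction field
  set Fr := FractionRing ℂ[X]
  set al := algebraMap ℂ[X] Fr with hal
  have hq' : al q ≠ 0 := by
    rw [hal]
    exact (map_ne_zero_iff _ (IsFractionRing.injective ℂ[X] Fr)).2 hq
  have h4 : (scaleRoots p q).eval₂ al (al q * (al w / al q)) = 0 := by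
    rw [mul_div_cancel₀ _ hq']
    have : (scaleRoots p q).eval₂ al (al w) = al ((scaleRoots p q).eval w) := by
      rw [eval₂_at_apply]
    rw [this, h1, map_zero]
  rw [scaleRoots_eval₂_mul] at h4
  have h5 : p.eval₂ al (al w / al q) = 0 :=
    (mul_eq_zero.1 h4).resolve_left (pow_ne_zero _ hq')
  have h6 : IsIntegral ℂ[X] (al w / al q) := ⟨p, hp, h5⟩
  obtain ⟨y, hy⟩ := IsIntegrallyClosed.isIntegral_iff.1 h6
  refine ⟨y, ?_⟩
  have h7 : al w = al (q * y) := by
    rw [map_mul, hal, hy, ← hal, mul_div_cancel₀ _ hq']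
  exact IsFractionRing.injective ℂ[X] Fr h7

/-- **A rational function with the denominator `P' ^ 3`, which is real at infinitely many points where
`P` is real, is a polynomial**, if no two critical values of `P` are conjugate. -/
theorem dvd_of_real {P G : ℂ[X]} (hP : 0 < P.natDegree) (hsq : Squarefree (derivative P))
    (hno : NoConj P) {S : Set ℂ} (hS : S.Infinite)
    (h : ∀ β ∈ S, (P.eval β).im = 0 ∧ (derivative P).eval β ≠ 0 ∧
      (G.eval β / (derivative P).eval β ^ 3).im = 0) : derivative P ^ 3 ∣ G := by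
  classical
  set D := derivative P with hD
  have hD0 : D ≠ 0 := hsq.ne_zero
  set cj := starRingEnd ℂ with hcj
  set R := D.roots.toFinset with hR
  have hRm : ∀ ξ, ξ ∈ R ↔ D.eval ξ = 0 := by
    intro ξ
    rw [hR, Multiset.mem_toFinset, mem_roots hD0, IsRoot.def]
  set gV : ℂ[X] := ∏ ξ ∈ R, (X - C (P.eval ξ)) with hgV
  set gVb : ℂ[X] := ∏ ξ ∈ R, (X - C (cj (P.eval ξ))) with hgVb
  -- `D` divides `gV(P)`
  have hdiv : D ∣ gV.comp P := by
    have h1 : D = C D.leadingCoeff * ∏ ξ ∈ R, (X - C ξ) := by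
      have h2 := (IsAlgClosed.splits D).eq_prod_roots
      have h3 : (D.roots.map fun a => X - C a).prod = ∏ ξ ∈ R, (X - C ξ) := by
        have hnd : D.roots.Nodup := nodup_roots (PerfectField.separable_iff_squarefree.2 hsq)
        show _ = (Multiset.map (fun ξ => X - C ξ) D.roots.toFinset.val).prod
        rw [Multiset.toFinset_val, hnd.dedup]
      rw [h3] at h2
      exact h2
    have h4 : ∏ ξ ∈ R, (X - C ξ) ∣ gV.comp P := by
      rw [hgV, prod_comp]
      refine Finset.prod_dvd_prod_of_dvd _ _ fun ξ _ => ?_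
      rw [sub_comp, X_comp, C_comp]
      exact X_sub_C_dvd_sub_C_eval
    rw [h1]
    exact (IsUnit.mul_left_dvd (isUnit_C.2 (isUnit_iff_ne_zero.2
      (leadingCoeff_ne_zero.2 hD0)))).2 h4
  obtain ⟨hh, hhh⟩ := hdiv
  have hgV0 : gV ≠ 0 := Finset.prod_ne_zero_iff.2 fun ξ _ => X_sub_C_ne_zero _
  have hgVP0 : gV.comp P ≠ 0 := by
    intro h0
    rw [comp_eq_zero_iff] at h0
    rcases h0 with h0 | h0
    · exact hgV0 h0
    · rw [h0.2, natDegree_C] at hP
      exact lt_irrefl _ hP
  have hh0 : hh ≠ 0 := fun h0 => hgVP0 (by rw [hhh, h0, mul_zero])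
  have cop : IsCoprime gV gVb := by
    refine IsCoprime.prod_left fun ξ hξ => IsCoprime.prod_right fun η hη => ?_
    refine isCoprime_X_sub_C_of_isUnit_sub (isUnit_iff_ne_zero.2 (sub_ne_zero.2 ?_))
    exact hno ξ η ((hRm ξ).1 hξ) ((hRm η).1 hη)
  have cop' : IsCoprime (gV.comp P) (gVb.comp P) := cop.map (compRingHom P)
  set A : ℂ[X] := G * hh ^ 3 with hA
  set Pb : ℂ[X] := P.map cj with hPb
  have hPbd : 0 < Pb.natDegree := by rwa [hPb, natDegree_map]
  obtain ⟨p, hp, hp0⟩ := isIntegralElem_comp hPbd (A.map cj)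
  have hdvd : (gV.comp P) ^ 3 ∣ A * (gVb.comp P) ^ 3 := by
    refine dvd_of_monic (pow_ne_zero _ hgVP0) (p.map (compRingHom P)) (hp.map _) hS
      fun β hβ => ⟨(A.map cj).eval (cj β), ?_, ?_⟩
    · obtain ⟨h1, h2, h3⟩ := h β hβ
      have hreal : cj (P.eval β) = P.eval β := Complex.conj_eq_iff_im.2 h1
      have h4 : cj (G.eval β / D.eval β ^ 3) = G.eval β / D.eval β ^ 3 :=
        Complex.conj_eq_iff_im.2 h3
      rw [map_div₀, map_pow, div_eq_div_iff (pow_ne_zero _ ((_root_.map_ne_zero cj).2 h2))
        (pow_ne_zero _ h2)] at h4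
      have h5 : (gVb.comp P).eval β = cj ((gV.comp P).eval β) := by
        rw [eval_comp, eval_comp, hgVb, hgV, eval_prod, eval_prod, map_prod]
        refine Finset.prod_congr rfl fun ξ _ => ?_
        rw [eval_sub, eval_X, eval_C, eval_sub, eval_X, eval_C, map_sub, hreal]
      have h6 : (gV.comp P).eval β = D.eval β * hh.eval β := by rw [hhh, eval_mul]
      rw [eval_conj, eval_mul, eval_pow, eval_pow, h5, h6, hA, eval_mul, eval_pow, map_mul,
        map_mul, map_pow]
      linear_combination (-(hh.eval β) ^ 3 * (cj (hh.eval β)) ^ 3) * h4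
    · have h1 : (P.eval β).im = 0 := (h β hβ).1
      have hreal : cj (P.eval β) = P.eval β := Complex.conj_eq_iff_im.2 h1
      have h2 := congrArg (evalRingHom (cj β)) hp0
      rw [hom_eval₂, map_zero] at h2
      rw [eval_map, eval₂_map]
      have h3 : (evalRingHom β).comp (compRingHom P) =
          (evalRingHom (cj β)).comp (compRingHom Pb) := by
        refine Polynomial.ringHom_ext (fun c => ?_) ?_
        · simp
        · simp only [RingHom.comp_apply, coe_compRingHom_apply, X_comp, coe_evalRingHom]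
          rw [hPb, eval_conj, hreal]
      rw [h3]
      exact h2
  have h7 : (gV.comp P) ^ 3 ∣ A := (cop'.pow (m := 3) (n := 3)).dvd_of_dvd_mul_right hdvd
  rw [hhh, mul_pow, hA] at h7
  exact (mul_dvd_mul_iff_right (pow_ne_zero 3 hh0)).1 h7

end Pool.Agent.Run7.h153.DG
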