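import Pool.Agent.TH826.UH.Pair
set_option autoImplicit false

/-!
The regulator of `{z, x - β}` on a loop as a function of `β`.
-/

namespace Pool.Agent.Run7.h153.DG

open MeasureTheory Set Metric Polynomial

open Pool.Agent.TH826.UH (pr NZ pr_div)

open scoped Real

section param

/-- Differentiation of a parameter integral. -/
theorem hasDerivAt_param {K K' : ℂ → ℝ → ℂ} {β₀ : ℂ} {ε C : ℝ} (hε : 0 < ε)
    (hd : ∀ β ∈ ball β₀ ε, ∀ t, HasDerivAt (fun β => K β t) (K' β t) β)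
    (hb : ∀ β ∈ ball β₀ ε, ∀ t ∈ Icc (0 : ℝ) 1, ‖K' β t‖ ≤ C)
    (hc : ∀ β ∈ ball β₀ ε, Continuous (K β)) (hc' : Continuous (K' β₀)) :
    HasDerivAt (fun β => ∫ t in (0 : ℝ)..1, K β t) (∫ t in (0 : ℝ)..1, K' β₀ t) β₀ := by
  refine (intervalIntegral.hasDerivAt_integral_of_dominated_loc_of_deriv_le
    (bound := fun _ => C) (ball_mem_nhds β₀ hε) ?_ ?_ ?_ ?_ ?_ ?_).2
  · filter_upwards [ball_mem_nhds β₀ hε] with β hβ
    exact (hc β hβ).aestronglyMeasurable
  · exact (hc β₀ (mem_ball_self hε)).intervalIntegrable _ _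
  · exact hc'.aestronglyMeasurable
  · refine Filter.Eventually.of_forall fun t ht β hβ => hb β hβ t ?_
    rw [uIoc_of_le zero_le_one] at ht
    exact Ioc_subset_Icc_self ht
  · exact intervalIntegrable_const
  · exact Filter.Eventually.of_forall fun t _ β hβ => hd β hβ t

end param

/-- A loop of class `C²` on the curve `z² - P(x) z + 1 = 0`, which avoids the branch points. -/
structure Lp (P : ℂ[X]) where
  X : ℝ → ℂ
  Z : ℝ → ℂ
  hX : ContDiff ℝ 2 X
  hZ : ContDiff ℝ 2 Z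
  perX : ∀ t, X (t + 1) = X t
  perZ : ∀ t, Z (t + 1) = Z t
  eq : ∀ t, Z t ^ 2 - P.eval (X t) * Z t + 1 = 0
  ne : ∀ t, Z t ^ 2 ≠ 1

namespace Lp

variable {P : ℂ[X]} (L : Lp P)

theorem z0 (t : ℝ) : L.Z t ≠ 0 := by
  intro h
  have h1 := L.eq t
  rw [h] at h1
  simp at h1

theorem nz : NZ L.Z := ⟨L.hZ, L.z0⟩

theorem inv_eq (t : ℝ) : L.Z t + (L.Z t)⁻¹ = P.eval (L.X t) := by
  have h1 := L.eq t
  have h2 := L.z0 t
  field_simp
  linear_combination h1

/-- the function `y = z - 1 / z` -/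
noncomputable def y (t : ℝ) : ℂ := L.Z t - (L.Z t)⁻¹

theorem y_ne (t : ℝ) : L.y t ≠ 0 := by
  intro h
  have h1 := L.z0 t
  unfold y at h
  rw [sub_eq_zero] at h
  have h2 := mul_inv_cancel₀ h1
  rw [← h, ← sq] at h2
  exact L.ne t h2

theorem y_sq (t : ℝ) : L.y t ^ 2 = P.eval (L.X t) ^ 2 - 4 := by
  rw [← L.inv_eq]
  unfold y
  have h1 := L.z0 t
  field_simp
  ring

/-- the logarithmic derivative of `z` -/
noncomputable def ld (t : ℝ) : ℂ := deriv L.Z t / L.Z t

theorem cont_ld : Continuous L.ld := L.nz.cont_ld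

theorem dX (t : ℝ) : HasDerivAt L.X (deriv L.X t) t :=
  ((L.hX.differentiable (by norm_num)) t).hasDerivAt

theorem dZ (t : ℝ) : HasDerivAt L.Z (deriv L.Z t) t :=
  ((L.hZ.differentiable (by norm_num)) t).hasDerivAt

theorem cont_dX : Continuous (deriv L.X) := L.hX.continuous_deriv (by norm_num)

theorem dy (t : ℝ) : HasDerivAt L.y (L.ld t * P.eval (L.X t)) t := by
  have h1 := (L.dZ t).sub ((L.dZ t).inv (L.z0 t))
  refine h1.congr_deriv ?_
  rw [← L.inv_eq]
  unfold ld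
  have h2 := L.z0 t
  field_simp
  ring

theorem dPX (t : ℝ) : HasDerivAt (fun t => P.eval (L.X t))
    ((derivative P).eval (L.X t) * deriv L.X t) t :=
  (P.hasDerivAt (L.X t)).comp t (L.dX t)

theorem ld_mul_y (t : ℝ) : L.ld t * L.y t = (derivative P).eval (L.X t) * deriv L.X t := by
  have h1 := (L.dZ t).add ((L.dZ t).inv (L.z0 t))
  have h2 : (fun t => L.Z t + (L.Z t)⁻¹) = fun t => P.eval (L.X t) := funext L.inv_eq
  have h3 : HasDerivAt (fun t => P.eval (L.X t)) (deriv L.Z t + -deriv L.Z t / L.Z t ^ 2) t := by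
    rw [← h2]
    exact h1
  rw [(L.dPX t).unique h3]
  unfold ld y
  have h4 := L.z0 t
  field_simp
  ring

/-- the differential `dx / y` -/
noncomputable def om (t : ℝ) : ℂ := deriv L.X t / L.y t

theorem cont_y : Continuous L.y := L.hZ.continuous.sub (L.hZ.continuous.inv₀ L.z0)

theorem cont_om : Continuous L.om := L.cont_dX.div L.cont_y L.y_ne

theorem ld_eq (t : ℝ) : L.ld t = (derivative P).eval (L.X t) * L.om t := by
  have h1 := L.ld_mul_y t
  unfold om
  rw [mul_div_assoc', ← h1, mul_div_cancel_right₀ _ (L.y_ne t)]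

/-- the period of `p(x) dx / y` -/
noncomputable def per (p : ℂ[X]) : ℂ := ∫ t in (0 : ℝ)..1, p.eval (L.X t) * L.om t

theorem cont_eval (p : ℂ[X]) : Continuous fun t => p.eval (L.X t) :=
  p.continuous.comp L.hX.continuous

theorem per_add (p q : ℂ[X]) : L.per (p + q) = L.per p + L.per q := by
  have h1 : Continuous fun t => p.eval (L.X t) * L.om t := (L.cont_eval p).mul L.cont_om
  have h2 : Continuous fun t => q.eval (L.X t) * L.om t := (L.cont_eval q).mul L.cont_om
  unfold per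
  rw [← intervalIntegral.integral_add (h1.intervalIntegrable _ _) (h2.intervalIntegrable _ _)]
  refine intervalIntegral.integral_congr fun t _ => ?_
  simp only [eval_add, add_mul]

theorem per_smul (c : ℂ) (p : ℂ[X]) : L.per (C c * p) = c * L.per p := by
  unfold per
  rw [← intervalIntegral.integral_const_mul]
  refine intervalIntegral.integral_congr fun t _ => ?_
  simp only [eval_mul, eval_C, mul_assoc]

/-- the periods as a linear map -/
noncomputable def perL : ℂ[X] →ₗ[ℂ] ℂ where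
  toFun := L.per
  map_add' := L.per_add
  map_smul' c p := by
    rw [RingHom.id_apply, smul_eq_mul, smul_eq_C_mul, per_smul]

/-- `∫ dlog z / (x - β)` -/
noncomputable def f (β : ℂ) : ℂ := ∫ t in (0 : ℝ)..1, L.ld t / (L.X t - β)

/-- `∫ dlog z / (x - β)²` -/
noncomputable def f2 (β : ℂ) : ℂ := ∫ t in (0 : ℝ)..1, L.ld t / (L.X t - β) ^ 2

/-- the regulator of `{z, x - β}` -/
noncomputable def rho (β : ℂ) : ℝ := pr L.Z fun t => L.X t - β

theorem ne_of_far {β₀ β : ℂ} {r : ℝ} (h : ∀ t, r ≤ ‖L.X t - β₀‖) (hβ : β ∈ ball β₀ r) (t : ℝ) :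
    L.X t - β ≠ 0 := by
  intro h0
  rw [sub_eq_zero] at h0
  have h1 := h t
  rw [h0, ← dist_eq_norm] at h1
  exact absurd (mem_ball.1 hβ) (not_lt.2 h1)

theorem far_half {β₀ β : ℂ} {r : ℝ} (h : ∀ t, r ≤ ‖L.X t - β₀‖) (hβ : β ∈ ball β₀ (r / 2))
    (t : ℝ) : r / 2 ≤ ‖L.X t - β‖ := by
  have h1 := h t
  have h2 : ‖L.X t - β₀‖ ≤ ‖L.X t - β‖ + ‖β - β₀‖ := by
    have : L.X t - β₀ = (L.X t - β) + (β - β₀) := by ring
    rw [this]
    exact norm_add_le _ _
  have h3 : ‖β - β₀‖ < r / 2 := by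
    rw [← dist_eq_norm]
    exact mem_ball.1 hβ
  linarith

theorem exists_bound : ∃ C : ℝ, 0 ≤ C ∧ ∀ t ∈ Icc (0 : ℝ) 1, ‖L.ld t‖ ≤ C := by
  obtain ⟨C, hC⟩ := isCompact_Icc.exists_bound_of_continuousOn (L.cont_ld.continuousOn (s := Icc 0 1))
  exact ⟨max C 0, le_max_right _ _, fun t ht => (hC t ht).trans (le_max_left _ _)⟩

theorem hasDerivAt_f {β₀ : ℂ} {r : ℝ} (hr : 0 < r) (h : ∀ t, r ≤ ‖L.X t - β₀‖) :
    HasDerivAt L.f (L.f2 β₀) β₀ := by
  obtain ⟨C, hC0, hC⟩ := L.exists_bound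
  refine hasDerivAt_param (K := fun β t => L.ld t / (L.X t - β))
    (K' := fun β t => L.ld t / (L.X t - β) ^ 2) (ε := r / 2) (C := C / (r / 2) ^ 2) (half_pos hr)
    ?_ ?_ ?_ ?_
  · intro β hβ t
    have h1 : L.X t - β ≠ 0 := by
      rw [← norm_pos_iff]
      exact (half_pos hr).trans_le (L.far_half h hβ t)
    have h2 : HasDerivAt (fun β : ℂ => L.X t - β) (-1) β := by
      simpa using (hasDerivAt_id β).const_sub (L.X t)
    have h3 := (h2.inv h1).const_mul (L.ld t)
    simp only [neg_neg, one_div] at h3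
    simpa [div_eq_mul_inv] using h3
  · intro β hβ t ht
    rw [norm_div, norm_pow]
    exact div_le_div₀ hC0 (hC t ht) (by positivity)
      (pow_le_pow_left₀ (half_pos hr).le (L.far_half h hβ t) 2)
  · intro β hβ
    exact L.cont_ld.div (L.hX.continuous.sub continuous_const) fun t => by
      rw [← norm_pos_iff]
      exact (half_pos hr).trans_le (L.far_half h hβ t)
  · exact L.cont_ld.div ((L.hX.continuous.sub continuous_const).pow 2) fun t =>
      pow_ne_zero _ (by
        rw [← norm_pos_iff]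
        exact hr.trans_le (h t))

/-- the logarithm of `(x - β) / (x - β₀)` -/
noncomputable def ll (β₀ β : ℂ) (t : ℝ) : ℂ := Complex.log (1 - (β - β₀) / (L.X t - β₀))

theorem slit {β₀ β : ℂ} {r : ℝ} (h : ∀ t, r ≤ ‖L.X t - β₀‖) (hβ : β ∈ ball β₀ r)
    (t : ℝ) : 1 - (β - β₀) / (L.X t - β₀) ∈ Complex.slitPlane := by
  have hr : 0 < r := (dist_nonneg).trans_lt (mem_ball.1 hβ)
  have h1 : ‖(β - β₀) / (L.X t - β₀)‖ < 1 := by
    rw [norm_div, div_lt_one (hr.trans_le (h t)), ← dist_eq_norm]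
    exact (mem_ball.1 hβ).trans_le (h t)
  left
  rw [Complex.sub_re, Complex.one_re]
  have h2 := (Complex.abs_re_le_norm ((β - β₀) / (L.X t - β₀))).trans_lt h1
  have h3 := (le_abs_self _).trans_lt h2
  linarith

theorem exp_ll {β₀ β : ℂ} {r : ℝ} (h : ∀ t, r ≤ ‖L.X t - β₀‖) (hβ : β ∈ ball β₀ r)
    (t : ℝ) : Complex.exp (L.ll β₀ β t) = (L.X t - β) / (L.X t - β₀) := by
  unfold ll
  rw [Complex.exp_log (Complex.slitPlane_ne_zero (L.slit h hβ t))]
  have h1 : L.X t - β₀ ≠ 0 := by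
    have hr : 0 < r := (dist_nonneg).trans_lt (mem_ball.1 hβ)
    rw [← norm_pos_iff]
    exact hr.trans_le (h t)
  field_simp
  ring

theorem contDiff_ll {β₀ β : ℂ} {r : ℝ} (h : ∀ t, r ≤ ‖L.X t - β₀‖) (hβ : β ∈ ball β₀ r) :
    ContDiff ℝ 2 (L.ll β₀ β) := by
  have hr : 0 < r := (dist_nonneg).trans_lt (mem_ball.1 hβ)
  have h1 : ∀ t, L.X t - β₀ ≠ 0 := fun t => by
    rw [← norm_pos_iff]
    exact hr.trans_le (h t)
  have h2 : ContDiff ℝ 2 fun t => 1 - (β - β₀) / (L.X t - β₀) := by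
    simp only [div_eq_mul_inv]
    exact contDiff_const.sub (contDiff_const.mul ((L.hX.sub contDiff_const).inv h1))
  rw [contDiff_iff_contDiffAt] at h2 ⊢
  intro t
  exact ((Complex.contDiffAt_log (L.slit h hβ t)).restrict_scalars ℝ).comp t (h2 t)

/-- a regulator with an entry which has a logarithm -/
theorem pr_exp {Z : ℝ → ℂ} (hZ : NZ Z) (hper : Z 1 = Z 0) {l : ℝ → ℂ} (hl : ContDiff ℝ 2 l)
    (hl1 : l 1 = l 0) : pr Z (fun t => Complex.exp (l t)) =
      -(∫ t in (0 : ℝ)..1, l t * (deriv Z t / Z t)).im := by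
  have dl : ∀ t, HasDerivAt l (deriv l t) t := fun t =>
    ((hl.differentiable (by norm_num)) t).hasDerivAt
  have dZ : ∀ t, HasDerivAt Z (deriv Z t) t := fun t =>
    ((hZ.smooth.differentiable (by norm_num)) t).hasDerivAt
  have cl : Continuous (deriv l) := hl.continuous_deriv (by norm_num)
  have clog := hZ.cont_log
  have cld := hZ.cont_ld
  -- the integral of the derivative of `log |Z| Im l`
  have hlog : ∀ t, HasDerivAt (fun t => Real.log ‖Z t‖) (deriv Z t / Z t).re t := by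
    intro t
    have h1 : (fun t => Real.log ‖Z t‖) = fun t => Real.log (‖Z t‖ ^ 2) / 2 := by
      funext t
      rw [Real.log_pow]
      push_cast
      ring
    have h2 : HasDerivAt (fun t => ‖Z t‖ ^ 2) (2 * ((starRingEnd ℂ) (Z t) * deriv Z t).re) t := by
      have e : (fun t => ‖Z t‖ ^ 2) = fun t => (Z t).re * (Z t).re + (Z t).im * (Z t).im := by
        funext t
        rw [← Complex.normSq_eq_norm_sq, Complex.normSq_apply]
      rw [e]
      have h3 : HasDerivAt (fun t => (Z t).re) (deriv Z t).re t :=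
        (Complex.reCLM.hasFDerivAt.comp_hasDerivAt t (dZ t))
      have h4 : HasDerivAt (fun t => (Z t).im) (deriv Z t).im t :=
        (Complex.imCLM.hasFDerivAt.comp_hasDerivAt t (dZ t))
      refine ((h3.mul h3).add (h4.mul h4)).congr_deriv ?_
      rw [Complex.mul_re, Complex.conj_re, Complex.conj_im]
      ring
    rw [h1]
    have h5 : ‖Z t‖ ^ 2 ≠ 0 := pow_ne_zero _ (norm_ne_zero_iff.2 (hZ.ne_zero t))
    refine ((h2.log h5).div_const 2).congr_deriv ?_
    have h6 : deriv Z t / Z t = (starRingEnd ℂ) (Z t) * deriv Z t / ((‖Z t‖ ^ 2 : ℝ) : ℂ) := by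
      have h7 : ((‖Z t‖ ^ 2 : ℝ) : ℂ) = Z t * (starRingEnd ℂ) (Z t) := by
        rw [Complex.mul_conj, Complex.normSq_eq_norm_sq]
      rw [h7]
      have h8 := hZ.ne_zero t
      have h9 : (starRingEnd ℂ) (Z t) ≠ 0 := (_root_.map_ne_zero _).2 h8
      field_simp
    rw [h6, Complex.div_ofReal_re]
    ring
  have hprod : ∀ t, HasDerivAt (fun t => Real.log ‖Z t‖ * (l t).im)
      ((deriv Z t / Z t).re * (l t).im + Real.log ‖Z t‖ * (deriv l t).im) t := fun t =>
    (hlog t).mul (Complex.imCLM.hasFDerivAt.comp_hasDerivAt t (dl t))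
  have hc1 : Continuous fun t => (deriv Z t / Z t).re * (l t).im + Real.log ‖Z t‖ * (deriv l t).im :=
    ((Complex.continuous_re.comp cld).mul (Complex.continuous_im.comp hl.continuous)).add
      (clog.mul (Complex.continuous_im.comp cl))
  have hint := intervalIntegral.integral_eq_sub_of_hasDerivAt (fun t _ => hprod t)
    (hc1.intervalIntegrable 0 1)
  rw [hper, hl1, sub_self] at hint
  unfold pr
  have e1 : ∀ t, Real.log ‖Z t‖ * (deriv (fun t => Complex.exp (l t)) t / Complex.exp (l t)).im -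
      Real.log ‖Complex.exp (l t)‖ * (deriv Z t / Z t).im =
      ((deriv Z t / Z t).re * (l t).im + Real.log ‖Z t‖ * (deriv l t).im) -
        (l t * (deriv Z t / Z t)).im := by
    intro t
    rw [((dl t).cexp).deriv, mul_comm (Complex.exp (l t)), mul_div_assoc,
      div_self (Complex.exp_ne_zero _), mul_one, Complex.norm_exp, Real.log_exp, Complex.mul_im]
    ring
  simp only [e1]
  rw [intervalIntegral.integral_sub (hc1.intervalIntegrable 0 1), hint, zero_sub]
  · congr 1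
    have h := Complex.imCLM.intervalIntegral_comp_comm
      ((hl.continuous.mul cld).intervalIntegrable (μ := volume) 0 1)
    exact h
  · exact (Complex.continuous_im.comp (hl.continuous.mul cld)).intervalIntegrable 0 1

theorem rho_sub {β₀ β : ℂ} {r : ℝ} (hr : 0 < r) (h : ∀ t, r ≤ ‖L.X t - β₀‖)
    (hβ : β ∈ ball β₀ r) :
    L.rho β = L.rho β₀ - (∫ t in (0 : ℝ)..1, L.ll β₀ β t * L.ld t).im := by
  have n1 : NZ fun t => L.X t - β := ⟨L.hX.sub contDiff_const, L.ne_of_far h hβ⟩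
  have n0 : NZ fun t => L.X t - β₀ :=
    ⟨L.hX.sub contDiff_const, L.ne_of_far h (mem_ball_self hr)⟩
  have h1 := pr_div L.nz n1 n0
  have h2 : (fun t => (L.X t - β) / (L.X t - β₀)) = fun t => Complex.exp (L.ll β₀ β t) := by
    funext t
    rw [L.exp_ll h hβ]
  rw [h2, pr_exp L.nz (by simpa using L.perZ 0) (L.contDiff_ll h hβ) (by
    unfold ll
    rw [show L.X 1 = L.X 0 by simpa using L.perX 0])] at h1
  unfold rho ld
  linarith

theorem hasDerivAt_ll_int {β₀ : ℂ} {r : ℝ} (hr : 0 < r) (h : ∀ t, r ≤ ‖L.X t - β₀‖) :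
    HasDerivAt (fun β => ∫ t in (0 : ℝ)..1, L.ll β₀ β t * L.ld t) (-L.f β₀) β₀ := by
  obtain ⟨C, hC0, hC⟩ := L.exists_bound
  have h1 : ∀ t, L.X t - β₀ ≠ 0 := fun t => by
    rw [← norm_pos_iff]
    exact hr.trans_le (h t)
  have key := hasDerivAt_param (K := fun β t => L.ll β₀ β t * L.ld t)
    (K' := fun β t => -(L.ld t / (L.X t - β))) (β₀ := β₀) (ε := r / 2) (C := C / (r / 2))
    (half_pos hr) ?_ ?_ ?_ ?_
  · refine key.congr_deriv ?_
    unfold f
    rw [← intervalIntegral.integral_neg]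
  · intro β hβ t
    have hβ' : β ∈ ball β₀ r := ball_subset_ball (by linarith) hβ
    have h2 : L.X t - β ≠ 0 := L.ne_of_far h hβ' t
    have h3 : HasDerivAt (fun β : ℂ => 1 - (β - β₀) / (L.X t - β₀)) (-(1 / (L.X t - β₀))) β := by
      have := (((hasDerivAt_id β).sub_const β₀).div_const (L.X t - β₀)).const_sub 1
      simpa using this
    have h4 := (h3.clog (L.slit h hβ' t)).mul_const (L.ld t)
    refine h4.congr_deriv ?_
    have h5 : 1 - (β - β₀) / (L.X t - β₀) = (L.X t - β) / (L.X t - β₀) := by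
      have := h1 t
      field_simp
      ring
    rw [h5]
    have := h1 t
    field_simp
  · intro β hβ t ht
    rw [norm_neg, norm_div]
    exact div_le_div₀ hC0 (hC t ht) (half_pos hr) (L.far_half h hβ t)
  · intro β hβ
    have hβ' : β ∈ ball β₀ r := ball_subset_ball (by linarith) hβ
    exact (L.contDiff_ll h hβ').continuous.mul L.cont_ld
  · exact (L.cont_ld.div (L.hX.continuous.sub continuous_const) h1).neg

/-- **The derivative of the regulator along a curve.** -/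
theorem hasDerivAt_rho {β₀ : ℂ} {r : ℝ} (hr : 0 < r) (h : ∀ t, r ≤ ‖L.X t - β₀‖) {c : ℝ → ℂ}
    {c' : ℂ} {t₀ : ℝ} (hc : HasDerivAt c c' t₀) (hc0 : c t₀ = β₀) :
    HasDerivAt (fun t => L.rho (c t)) (c' * L.f β₀).im t₀ := by
  have h1 := L.hasDerivAt_ll_int hr h
  rw [← hc0] at h1
  have h2 := h1.comp_of_eq t₀ hc rfl
  have h3 := (Complex.imCLM.hasFDerivAt.comp_hasDerivAt t₀ h2).const_sub (L.rho β₀)
  have h4 : HasDerivAt (fun t => L.rho β₀ -
      (∫ s in (0 : ℝ)..1, L.ll (c t₀) (c t) s * L.ld s).im) (c' * L.f β₀).im t₀ := by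
    refine h3.congr_deriv ?_
    rw [hc0]
    show -((-L.f β₀ * c').im) = _
    rw [neg_mul, Complex.neg_im, neg_neg, mul_comm]
  refine h4.congr_of_eventuallyEq ?_
  have h5 : ∀ᶠ t in nhds t₀, c t ∈ ball β₀ r :=
    hc.continuousAt.eventually_mem (by rw [hc0]; exact ball_mem_nhds β₀ hr)
  filter_upwards [h5] with t ht
  rw [hc0]
  exact L.rho_sub hr h ht

end Lp

end Pool.Agent.Run7.h153.DG
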