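import Pool.Agent.Run7.h153.DG.Pol
set_option autoImplicit false

/-!
Arcs of `P⁻¹([-2, 2])`, and the reality of `G / P'³` on them.
-/

namespace Pool.Agent.Run7.h153.DG

open MeasureTheory Set Metric Polynomial

/-- a small arc on which `P` is real -/
theorem exists_arc {P : ℂ[X]} {β₀ : ℂ} {r t₀ : ℝ} (hr : 0 < r) (h0 : P.eval β₀ = t₀)
    (h1 : (derivative P).eval β₀ ≠ 0) : ∃ (δ : ℝ) (c : ℝ → ℂ), 0 < δ ∧ c t₀ = β₀ ∧
      ∀ t, |t - t₀| < δ → P.eval (c t) = t ∧ c t ∈ ball β₀ r ∧ (derivative P).eval (c t) ≠ 0 ∧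
        HasDerivAt c ((derivative P).eval (c t))⁻¹ t := by
  have hs : HasStrictDerivAt (fun z => P.eval z) ((derivative P).eval β₀) β₀ :=
    P.hasStrictDerivAt β₀
  set g := hs.localInverse (fun z => P.eval z) ((derivative P).eval β₀) β₀ h1 with hg
  have hgd : HasStrictDerivAt g ((derivative P).eval β₀)⁻¹ (P.eval β₀) := hs.to_localInverse h1
  have hri : ∀ᶠ y in nhds (P.eval β₀), P.eval (g y) = y :=
    HasStrictFDerivAt.eventually_right_inverse (hs.hasStrictFDerivAt_equiv h1)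
  have hg0 : g (P.eval β₀) = β₀ :=
    HasStrictFDerivAt.localInverse_apply_image (hs.hasStrictFDerivAt_equiv h1)
  have hcont : ∀ᶠ y in nhds (P.eval β₀), ContinuousAt g y := by
    obtain ⟨K, s, hs1, hs2⟩ := hgd.hasStrictFDerivAt.exists_lipschitzOnWith
    filter_upwards [eventually_eventually_nhds.2 hs1] with y hy
    exact hs2.continuousOn.continuousAt hy
  have hball : ∀ᶠ y in nhds (P.eval β₀), g y ∈ ball β₀ r :=
    hgd.hasDerivAt.continuousAt.eventually_mem (by rw [hg0]; exact ball_mem_nhds β₀ hr)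
  have hne : ∀ᶠ y in nhds (P.eval β₀), (derivative P).eval (g y) ≠ 0 := by
    have : ContinuousAt (fun y => (derivative P).eval (g y)) (P.eval β₀) :=
      (derivative P).continuous.continuousAt.comp hgd.hasDerivAt.continuousAt
    refine this.eventually_ne ?_
    rw [hg0]
    exact h1
  have hall := ((hri.eventually_nhds.and hcont).and (hball.and hne))
  rw [h0] at hall
  have hall' : ∀ᶠ t : ℝ in nhds t₀, (((∀ᶠ y in nhds (t : ℂ), P.eval (g y) = y) ∧
      ContinuousAt g (t : ℂ)) ∧ g (t : ℂ) ∈ ball β₀ r ∧ (derivative P).eval (g (t : ℂ)) ≠ 0) :=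
    Complex.continuous_ofReal.continuousAt.eventually hall
  obtain ⟨δ, hδ, hδ2⟩ := Metric.eventually_nhds_iff.1 hall'
  refine ⟨δ, fun t => g t, hδ, by rw [h0] at hg0; exact hg0, fun t ht => ?_⟩
  obtain ⟨⟨k1, k2⟩, k3, k4⟩ := hδ2 (by rw [Real.dist_eq]; exact ht)
  refine ⟨k1.self_of_nhds, k3, k4, ?_⟩
  have h5 : HasDerivAt g ((derivative P).eval (g t))⁻¹ (t : ℂ) :=
    HasDerivAt.of_local_left_inverse k2 (P.hasDerivAt _) k4 k1
  exact h5.comp_ofReal

/-- The values of `z` over `x = β` are roots of unity. -/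
def Tors (P : ℂ[X]) (β : ℂ) : Prop := ∃ (ζ : ℂ) (k : ℕ), k ≠ 0 ∧ ζ ^ k = 1 ∧ P.eval β = ζ + ζ⁻¹

theorem tors_cos {P : ℂ[X]} {β : ℂ} (q : ℚ)
    (h : P.eval β = ((2 * Real.cos (2 * Real.pi * q) : ℝ) : ℂ)) : Tors P β := by
  refine ⟨Complex.exp ((2 * Real.pi * q : ℝ) * Complex.I), q.den, q.den_nz, ?_, ?_⟩
  · rw [← Complex.exp_nat_mul]
    have e : (q.den : ℂ) * (((2 * Real.pi * q : ℝ) : ℂ) * Complex.I) =
        (q.num : ℂ) * (2 * Real.pi * Complex.I) := by
      have h1 : (q : ℂ) * q.den = q.num := by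
        have := Rat.mul_den_eq_num q
        exact_mod_cast this
      push_cast
      linear_combination (2 * Real.pi * Complex.I) * h1
    rw [e]
    exact Complex.exp_int_mul_two_pi_mul_I q.num
  · rw [h, ← Complex.exp_neg]
    push_cast
    rw [Complex.cos]
    ring_nf

/-- a continuous function of `t ∈ (-2, 2)` which is constant on the values of `2 cos` at rational
multiples of `2 π` -/
theorem const_of_tors {u : ℝ → ℝ} {κ t : ℝ} (ht : -2 < t ∧ t < 2) (hu : ContinuousAt u t)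
    (h : ∀ᶠ s in nhds t, (∃ q : ℚ, s = 2 * Real.cos (2 * Real.pi * q)) → u s = κ) : u t = κ := by
  set x₀ := Real.arccos (t / 2) / (2 * Real.pi) with hx₀
  have hx : 2 * Real.cos (2 * Real.pi * x₀) = t := by
    rw [hx₀, mul_div_cancel₀ _ (by positivity), Real.cos_arccos (by linarith) (by linarith)]
    ring
  have hc : ContinuousAt (fun x : ℝ => 2 * Real.cos (2 * Real.pi * x)) x₀ := by fun_prop
  have hcu : Filter.Tendsto (fun x : ℝ => u (2 * Real.cos (2 * Real.pi * x)))
      (nhdsWithin x₀ (range ((↑) : ℚ → ℝ))) (nhds (u t)) := by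
    have h1 : ContinuousAt (fun x : ℝ => u (2 * Real.cos (2 * Real.pi * x))) x₀ := by
      refine ContinuousAt.comp (g := u) ?_ hc
      rw [hx]
      exact hu
    have h2 := h1.tendsto.mono_left (nhdsWithin_le_nhds (s := range ((↑) : ℚ → ℝ)))
    simp only [hx] at h2
    exact h2
  have hev : ∀ᶠ x in nhdsWithin x₀ (range ((↑) : ℚ → ℝ)),
      u (2 * Real.cos (2 * Real.pi * x)) = κ := by
    have h1 : ∀ᶠ x in nhds x₀, (∃ q : ℚ, 2 * Real.cos (2 * Real.pi * x) =
        2 * Real.cos (2 * Real.pi * q)) → u (2 * Real.cos (2 * Real.pi * x)) = κ := by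
      rw [← hx] at h
      exact hc.eventually h
    filter_upwards [nhdsWithin_le_nhds h1, self_mem_nhdsWithin] with x hx1 hx2
    obtain ⟨q, hq⟩ := hx2
    exact hx1 ⟨q, by rw [← hq]⟩
  have hne : (nhdsWithin x₀ (range ((↑) : ℚ → ℝ))).NeBot := by
    rw [← mem_closure_iff_nhdsWithin_neBot]
    exact Rat.denseRange_cast x₀
  exact tendsto_nhds_unique hcu (Filter.Tendsto.congr' (Filter.EventuallyEq.symm hev)
    tendsto_const_nhds)

variable {P : ℂ[X]} {d : ℕ}

/-- **The reality of `G / P'³`** -/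
theorem real_points (L : Fin d → Lp P) (s : Fin d → ℝ) {β₀ : ℂ} {r t₀ κ : ℝ} (hr : 0 < r)
    (hfar : ∀ l t, r ≤ ‖(L l).X t - β₀‖) (h0 : P.eval β₀ = t₀) (ht₀ : -2 < t₀ ∧ t₀ < 2)
    (h1 : (derivative P).eval β₀ ≠ 0)
    (hκ : ∀ β ∈ ball β₀ r, Tors P β → ∑ l, s l * (L l).rho β = κ) :
    ∃ (δ : ℝ) (c : ℝ → ℂ), 0 < δ ∧ c t₀ = β₀ ∧ ContinuousAt c t₀ ∧
      ∀ t, |t - t₀| < δ → P.eval (c t) = t ∧
      c t ∈ ball β₀ r ∧ (derivative P).eval (c t) ≠ 0 ∧
        ((∑ l, C (s l : ℂ) * (L l).GP).eval (c t) / (derivative P).eval (c t) ^ 3).im = 0 := by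
  obtain ⟨δ₁, c, hδ₁, hc₀, hc⟩ := exists_arc (half_pos hr) h0 h1
  set δ := min δ₁ (min (t₀ + 2) (2 - t₀)) with hδ
  have hδ0 : 0 < δ := lt_min hδ₁ (lt_min (by linarith) (by linarith))
  refine ⟨δ, c, hδ0, hc₀, (hc t₀ (by rw [sub_self, abs_zero]; exact hδ₁)).2.2.2.continuousAt, ?_⟩
  have hI : ∀ t, |t - t₀| < δ → |t - t₀| < δ₁ ∧ -2 < t ∧ t < 2 := by
    intro t ht
    have a1 : δ ≤ δ₁ := min_le_left _ _
    have a2 : δ ≤ t₀ + 2 := (min_le_right _ _).trans (min_le_left _ _)
    have a3 : δ ≤ 2 - t₀ := (min_le_right _ _).trans (min_le_right _ _)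
    have a4 := abs_lt.1 ht
    exact ⟨ht.trans_le a1, by linarith, by linarith⟩
  have hnear : ∀ t, |t - t₀| < δ → ∀ᶠ s in nhds t, |s - t₀| < δ := by
    intro t ht
    have : Continuous fun s : ℝ => |s - t₀| := (continuous_id.sub continuous_const).abs
    exact this.continuousAt.eventually_lt continuousAt_const ht
  have hsub : ball β₀ (r / 2) ⊆ ball β₀ r := ball_subset_ball (by linarith)
  have hfar' : ∀ t, |t - t₀| < δ → ∀ l τ, r / 2 ≤ ‖(L l).X τ - c t‖ := fun t ht l τ =>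
    (L l).far_half (hfar l) (hc t (hI t ht).1).2.1 τ
  -- the derivative of the sum of the regulators
  have hS : ∀ t, |t - t₀| < δ → HasDerivAt (fun t => ∑ l, s l * (L l).rho (c t))
      (∑ l, s l * (((derivative P).eval (c t))⁻¹ * (L l).f (c t)).im) t := by
    intro t ht
    have h2 : ∀ l ∈ Finset.univ, HasDerivAt (fun t => s l * (L l).rho (c t))
        (s l * (((derivative P).eval (c t))⁻¹ * (L l).f (c t)).im) t := fun l _ =>
      ((L l).hasDerivAt_rho (half_pos hr) (hfar' t ht l) (hc t (hI t ht).1).2.2.2 rfl).const_mul _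
    exact HasDerivAt.fun_sum h2
  have hconst : ∀ t, |t - t₀| < δ → ∑ l, s l * (L l).rho (c t) = κ := by
    intro t ht
    refine const_of_tors (u := fun t => ∑ l, s l * (L l).rho (c t)) (hI t ht).2
      (hS t ht).continuousAt ?_
    filter_upwards [hnear t ht] with τ hτ hq
    obtain ⟨q, hq⟩ := hq
    obtain ⟨k1, k2, -, -⟩ := hc τ (hI τ hτ).1
    exact hκ _ (hsub k2) (tors_cos q (by rw [k1, hq]))
  have hzero : ∀ t, |t - t₀| < δ →
      ∑ l, s l * (((derivative P).eval (c t))⁻¹ * (L l).f (c t)).im = 0 := by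
    intro t ht
    have h2 : HasDerivAt (fun t => ∑ l, s l * (L l).rho (c t)) 0 t := by
      refine (hasDerivAt_const t κ).congr_of_eventuallyEq ?_
      filter_upwards [hnear t ht] with τ hτ
      exact hconst τ hτ
    exact (hS t ht).unique h2
  -- the real function
  set F : ℂ → ℂ := fun β => ∑ l, (s l : ℂ) * (L l).f β with hF
  set F2 : ℂ → ℂ := fun β => ∑ l, (s l : ℂ) * (L l).f2 β with hF2
  have hφ0 : ∀ t, |t - t₀| < δ → (F (c t) / (derivative P).eval (c t)).im = 0 := by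
    intro t ht
    rw [← hzero t ht, hF]
    simp only
    rw [Finset.sum_div, Complex.im_sum]
    refine Finset.sum_congr rfl fun l _ => ?_
    rw [← Complex.im_ofReal_mul]
    congr 1
    rw [div_eq_mul_inv]
    ring
  have hφd : ∀ t, |t - t₀| < δ → HasDerivAt (fun t => F (c t) / (derivative P).eval (c t))
      ((F2 (c t) - F (c t) * (derivative (derivative P)).eval (c t) /
        (derivative P).eval (c t)) / (derivative P).eval (c t) ^ 2) t := by
    intro t ht
    obtain ⟨k1, k2, k3, k4⟩ := hc t (hI t ht).1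
    have h2 : HasDerivAt F (F2 (c t)) (c t) := by
      have h3 : ∀ l ∈ Finset.univ, HasDerivAt (fun β => (s l : ℂ) * (L l).f β)
          ((s l : ℂ) * (L l).f2 (c t)) (c t) := fun l _ =>
        ((L l).hasDerivAt_f (half_pos hr) (hfar' t ht l)).const_mul _
      exact HasDerivAt.fun_sum h3
    have h5 := (h2.comp_of_eq t k4 rfl).div
      (((derivative P).hasDerivAt (c t)).comp_of_eq t k4 rfl) k3
    refine h5.congr_deriv ?_
    simp only [Function.comp_apply]
    field_simp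
  have hφ1 : ∀ t, |t - t₀| < δ → ((F2 (c t) - F (c t) * (derivative (derivative P)).eval (c t) /
        (derivative P).eval (c t)) / (derivative P).eval (c t) ^ 2).im = 0 := by
    intro t ht
    have h2 := Complex.imCLM.hasFDerivAt.comp_hasDerivAt t (hφd t ht)
    have h3 : HasDerivAt (Complex.imCLM ∘ fun t => F (c t) / (derivative P).eval (c t)) 0 t := by
      refine (hasDerivAt_const t (0 : ℝ)).congr_of_eventuallyEq ?_
      filter_upwards [hnear t ht] with τ hτ
      exact hφ0 τ hτ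
    exact h2.unique h3
  intro t ht
  obtain ⟨k1, k2, k3, k4⟩ := hc t (hI t ht).1
  refine ⟨k1, hsub k2, k3, ?_⟩
  have hG : (∑ l, C (s l : ℂ) * (L l).GP).eval (c t) =
      (A1 P).eval (c t) * F (c t) + (A2 P).eval (c t) * F2 (c t) := by
    rw [eval_finsetSum, hF, hF2]
    simp only
    rw [Finset.mul_sum, Finset.mul_sum, ← Finset.sum_add_distrib]
    refine Finset.sum_congr rfl fun l _ => ?_
    rw [eval_mul, eval_C, (L l).GP_eq (fun τ => by
      rw [← norm_pos_iff]
      exact (half_pos hr).trans_le (hfar' t ht l τ))]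
    ring
  have hR : (∑ l, C (s l : ℂ) * (L l).GP).eval (c t) / (derivative P).eval (c t) ^ 3 =
      (t : ℂ) * (F (c t) / (derivative P).eval (c t)) + ((t ^ 2 - 4 : ℝ) : ℂ) *
        ((F2 (c t) - F (c t) * (derivative (derivative P)).eval (c t) /
        (derivative P).eval (c t)) / (derivative P).eval (c t) ^ 2) := by
    rw [hG]
    unfold A1 A2
    simp only [eval_sub, eval_mul, eval_pow, eval_C, k1]
    push_cast
    field_simp
    ring
  rw [hR, Complex.add_im, Complex.im_ofReal_mul, Complex.im_ofReal_mul, hφ0 t ht, hφ1 t ht]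
  ring

end Pool.Agent.Run7.h153.DG
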