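import Pool.Agent.Run7.h153.DG.Fld
set_option autoImplicit false

/-!
Definitions for the statement over number fields.
-/

namespace Pool.Agent.Run7.h153.DG

open Polynomial

open Pool.Agent.TH826.MK (KQ symb Torus Unramified)

open Pool.Agent.TH826.HD (PRing POpen ppol pz toP pent pcst)

universe u v w

/-- `T` is a nonempty set of complex numbers `p` such that `P(p)` is real, `-2 < P(p) < 2` and
`P'(p) ≠ 0`; and for each representation `P = A(u)` with a real polynomial `A` of degree at least `2`
and a complex polynomial `u` there is a point `p` in `T` for which `u(p)` is not real. -/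
def Admissible (P : ℂ[X]) (T : Set ℂ) : Prop :=
  T.Nonempty ∧
  (∀ p ∈ T, (∃ t : ℝ, |t| < 2 ∧ P.eval p = t) ∧ (derivative P).eval p ≠ 0) ∧
  ∀ (A : ℝ[X]) (u : ℂ[X]), 2 ≤ A.natDegree → P = (A.map (algebraMap ℝ ℂ)).comp u →
    ∃ p ∈ T, (u.eval p).im ≠ 0

/-- `Γ_1, ..., Γ_d` are loops (`1`-dimensional tori) in the complex points over `σ` of the curve
`z² - F(x) z + 1 = 0` which avoid the branch points (`z² ≠ 1`) and the discs `|x - p| < r` around the
points `p` of `T`. -/
def LoopsOff {k : Type u} [Field k] {F : k[X]} (σ : k →+* ℂ) (T : Set ℂ) (r : ℝ) {d : ℕ}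
    (Γ : Fin d → Torus (PRing F) 1) : Prop :=
  (∀ l θ (y : k), (Γ l).e θ (ppol F (C y)) = σ y) ∧
  ∀ l θ, (Γ l).e θ (pz F) ^ 2 ≠ 1 ∧ ∀ p ∈ T, r ≤ ‖(Γ l).e θ (ppol F X) - p‖

/-- The symbols `{z, (x - c_m) / (x - c_l)}` on the open part `∏_m (x - c_m) ≠ 0` of the curve
`z² - F(x) z + 1 = 0` over `L` are unramified at all discrete valuations of `M`, for all fields `M` with
a homomorphism from the ring of the open part (in particular for the function field of the curve). -/
def AllUnramified {L : Type v} [Field L] (F : L[X]) {n : ℕ} (c : Fin n → L) : Prop :=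
  ∀ (M : Type w) [Field M] (f : POpen F c →+* M) (m l : Fin n),
    KQ.map 2 f (symb (pent F c m l)) ∈ Unramified M 2

/-- Let `Γ_1, ..., Γ_d` be loops in the complex points of the curve `z² - F₀(x) z + 1 = 0` over `k`, and
let `F` be a polynomial over `L` (the image of `F₀` for an extension `L` of `k`), `τ` a complex
embedding of `L` and `c_0, ..., c_d` elements of `L`. The loops are loops `Γ'_l` in the complex points
over `τ` of the open part `∏_m (x - c_m) ≠ 0` of the curve `z² - F(x) z + 1 = 0` over `L` (with the same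
functions `x` and `z`), and the determinant of the regulators of the `d` symbols
`{z, (x - c_k) / (x - c_0)}`, `1 ≤ k ≤ d`, on the loops `Γ'_l` does not vanish. -/
def RegulatorsIndependent {k : Type u} [Field k] {F₀ : k[X]} {d : ℕ}
    (Γ : Fin d → Torus (PRing F₀) 1) {L : Type v} [Field L] (F : L[X]) (τ : L →+* ℂ)
    (c : Fin (d + 1) → L) : Prop :=
  ∃ Γ' : Fin d → Torus (POpen F c) 1,
    (∀ l θ, (∀ y : L, (Γ' l).e θ (pcst F c y) = τ y) ∧
      (Γ' l).e θ (toP F c (ppol F X)) = (Γ l).e θ (ppol F₀ X) ∧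
      (Γ' l).e θ (toP F c (pz F)) = (Γ l).e θ (pz F₀)) ∧
    (Matrix.of fun l k : Fin d => (Γ' l).reg (symb (pent F c k.succ 0))).det ≠ 0

end Pool.Agent.Run7.h153.DG
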