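import Pool.Agent.Run7.h153.DG.Main
set_option autoImplicit false

/-!
Loops and symbols over an extension of the base field; algebraic integers.
-/

namespace Pool.Agent.Run7.h153.DG

open MeasureTheory Set Metric Polynomial

open Pool.Agent.TH826.MK (Torus symb)

open Pool.Agent.TH826.HD (PRing POpen ppol pz toP pent peqn pz_eq pcst)

open Pool.Agent.TH826.UH (PtS mkS mkS_e mkS_reg)

/-- A loop as a loop in the open part over an extension of the field. -/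
theorem exists_lift_ext {P : ℂ[X]} (Λ : Lp P) {L : Type*} [Field L] {F : L[X]} {τ : L →+* ℂ}
    (hF : F.map τ = P) {n : ℕ} {c : Fin n → L} (hc : ∀ t m, Λ.X t ≠ τ (c m)) :
    ∃ Γ' : Torus (POpen F c) 1,
      (∀ θ, (∀ y : L, Γ'.e θ (pcst F c y) = τ y) ∧
        Γ'.e θ (toP F c (ppol F Polynomial.X)) = Λ.X (θ 0) ∧ Γ'.e θ (toP F c (pz F)) = Λ.Z (θ 0)) ∧
      ∀ m l, Γ'.reg (symb (pent F c m l)) = Λ.rho (τ (c m)) - Λ.rho (τ (c l)) := by
  have hP : ∀ t, PtS τ F c (Λ.X t) (Λ.Z t) := fun t => by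
    refine ⟨?_, fun m => hc t m⟩
    have e : F.eval₂ τ (Λ.X t) = P.eval (Λ.X t) := by rw [← eval_map, hF]
    rw [e]
    exact Λ.eq t
  refine ⟨mkS Λ.hX Λ.nz.smooth Λ.perX Λ.perZ hP, fun θ => ⟨fun y => ?_, ?_, ?_⟩, fun m l => ?_⟩
  · rw [mkS_e, PtS.evA_pcst]
  · rw [mkS_e, PtS.evA_toP, PtS.evB_ppol, eval₂_X]
  · rw [mkS_e, PtS.evA_toP, PtS.evB_pz]
  · rw [mkS_reg Λ.hX Λ.nz Λ.perX Λ.perZ hP m l]
    rfl

/-- the solutions of `F(b) = ζ + 1/ζ` are algebraic integers -/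
theorem isIntegral_of_tors {P : ℂ[X]} (hm : P.Monic) (hP : 0 < P.natDegree)
    (hint : ∀ i, IsIntegral ℤ (P.coeff i)) {β : ℂ} (h : Tors P β) : IsIntegral ℤ β := by
  obtain ⟨ζ, n, hn, hζ, hβ⟩ := h
  have hζ0 : ζ ≠ 0 := by
    rintro rfl
    rw [zero_pow hn] at hζ
    exact zero_ne_one hζ
  have i1 : IsIntegral ℤ ζ := IsIntegral.of_pow (Nat.pos_of_ne_zero hn) (by rw [hζ]; exact isIntegral_one)
  have i2 : IsIntegral ℤ ζ⁻¹ := IsIntegral.of_pow (Nat.pos_of_ne_zero hn)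
    (by rw [inv_pow, hζ, inv_one]; exact isIntegral_one)
  -- the polynomial `P - (ζ + 1/ζ)` over the ring of algebraic integers
  set t := ζ + ζ⁻¹ with ht
  have i3 : IsIntegral ℤ t := i1.add i2
  set Q : ℂ[X] := P - C t with hQ
  have hQi : ∀ i, IsIntegral ℤ (Q.coeff i) := by
    intro i
    rw [hQ, coeff_sub, coeff_C]
    split_ifs
    · exact (hint i).sub i3
    · exact (hint i).sub isIntegral_zero
  have hQd : Q.natDegree = P.natDegree := by rw [hQ, natDegree_sub_C]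
  have hQm : Q.Monic := by
    rw [Monic, leadingCoeff, hQd, hQ, coeff_sub, coeff_C_of_ne_zero hP.ne', sub_zero]
    exact hm
  have hlift : Q ∈ lifts (algebraMap (integralClosure ℤ ℂ) ℂ) := by
    rw [lifts_iff_coeff_lifts]
    exact fun n => ⟨⟨Q.coeff n, hQi n⟩, rfl⟩
  obtain ⟨q, hq, -, hqm⟩ := lifts_and_natDegree_eq_and_monic hlift hQm
  have h1 : IsIntegral (integralClosure ℤ ℂ) β := by
    refine ⟨q, hqm, ?_⟩
    rw [← eval_map, hq, hQ, eval_sub, eval_C, hβ, ht, sub_self]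
  exact isIntegral_trans (R := ℤ) (A := integralClosure ℤ ℂ) β h1

end Pool.Agent.Run7.h153.DG
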