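import Mathlib
set_option autoImplicit false

/-!
Lüroth's theorem for fields which contain a polynomial.
-/

namespace Pool.Agent.Run7.h153.DG

open Polynomial IntermediateField

/-- the inclusion of the polynomials into the rational functions -/
noncomputable abbrev al : ℂ[X] →+* RatFunc ℂ := algebraMap ℂ[X] (RatFunc ℂ)

theorem al_inj {a b : ℂ[X]} (h : al a = al b) : a = b := RatFunc.algebraMap_injective ℂ h

theorem al_ne {a : ℂ[X]} (h : a ≠ 0) : al a ≠ 0 := RatFunc.algebraMap_ne_zero h

theorem aeval_al (u r : ℂ[X]) : aeval (al u) r = al (r.comp u) := by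
  rw [aeval_algebraMap_apply]
  rfl

/-- a nonconstant complex polynomial takes all values -/
theorem exists_eval_eq {u : ℂ[X]} (hu : 0 < u.natDegree) (c : ℂ) : ∃ x, u.eval x = c := by
  have h1 : (u - C c).degree ≠ 0 := by
    rw [degree_sub_C (natDegree_pos_iff_degree_pos.1 hu)]
    exact (natDegree_pos_iff_degree_pos.1 hu).ne'
  obtain ⟨x, hx⟩ := IsAlgClosed.exists_root _ h1
  refine ⟨x, ?_⟩
  rw [IsRoot.def, eval_sub, eval_C] at hx
  exact sub_eq_zero.1 hx

/-- dividing out the common factor -/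
theorem exists_coprime {w g : RatFunc ℂ} (hw : w ≠ 0) {r s : ℂ[X]}
    (h : w = aeval g r / aeval g s) :
    ∃ r' s' : ℂ[X], IsCoprime r' s' ∧ s' ≠ 0 ∧ w * aeval g s' = aeval g r' := by
  classical
  have hs : aeval g s ≠ 0 := by
    intro h0
    rw [h0, div_zero] at h
    exact hw h
  have hs0 : s ≠ 0 := by
    rintro rfl
    exact hs (map_zero _)
  set d := EuclideanDomain.gcd r s with hd
  obtain ⟨r', hr'⟩ := EuclideanDomain.gcd_dvd_left r s
  obtain ⟨s', hs'⟩ := EuclideanDomain.gcd_dvd_right r s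
  rw [← hd] at hr' hs'
  have hd0 : d ≠ 0 := by
    intro h0
    rw [h0, zero_mul] at hs'
    exact hs0 hs'
  have hs'0 : s' ≠ 0 := by
    rintro rfl
    rw [mul_zero] at hs'
    exact hs0 hs'
  have hgd : aeval g d ≠ 0 := by
    intro h0
    rw [hs', map_mul, h0, zero_mul] at hs
    exact hs rfl
  refine ⟨r', s', ?_, hs'0, ?_⟩
  · have h1 := EuclideanDomain.gcd_eq_gcd_ab r s
    rw [← hd] at h1
    refine ⟨EuclideanDomain.gcdA r s, EuclideanDomain.gcdB r s, ?_⟩
    apply mul_left_cancel₀ hd0
    rw [mul_one]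
    calc d * (EuclideanDomain.gcdA r s * r' + EuclideanDomain.gcdB r s * s') =
        (d * r') * EuclideanDomain.gcdA r s + (d * s') * EuclideanDomain.gcdB r s := by ring
      _ = r * EuclideanDomain.gcdA r s + s * EuclideanDomain.gcdB r s := by rw [← hr', ← hs']
      _ = d := h1.symm
  · rw [h, hr', hs', map_mul, map_mul, mul_div_mul_left _ _ hgd]
    have : aeval g s' ≠ 0 := by
      intro h0
      rw [hs', map_mul, h0, mul_zero] at hs
      exact hs rfl
    rw [div_mul_cancel₀ _ this]

/-- a polynomial in `ℂ(u)`, for a nonconstant polynomial `u`, is a polynomial in `u` -/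
theorem exists_comp {u W : ℂ[X]} (hu : 0 < u.natDegree) (h : al W ∈ ℂ⟮al u⟯) :
    ∃ B : ℂ[X], W = B.comp u := by
  by_cases hW : W = 0
  · exact ⟨0, by rw [hW, zero_comp]⟩
  rw [mem_adjoin_simple_iff] at h
  obtain ⟨r, s, hrs⟩ := h
  obtain ⟨r', s', hc, hs0, he⟩ := exists_coprime (al_ne hW) hrs
  rw [aeval_al, aeval_al, ← map_mul] at he
  have he' := al_inj he
  by_cases hdeg : s'.natDegree = 0
  · obtain ⟨κ, hκ⟩ := natDegree_eq_zero.1 hdeg
    have hκ0 : κ ≠ 0 := by
      rintro rfl
      rw [C_0] at hκ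
      exact hs0 hκ.symm
    refine ⟨C κ⁻¹ * r', ?_⟩
    rw [mul_comp, C_comp, ← he', ← hκ, C_comp, mul_comm W, ← mul_assoc, ← C_mul,
      inv_mul_cancel₀ hκ0, C_1, one_mul]
  · exfalso
    obtain ⟨c, hc0⟩ := exists_eval_eq (Nat.pos_of_ne_zero hdeg) 0
    obtain ⟨x, hx⟩ := exists_eval_eq hu c
    have h1 := congrArg (fun p => p.eval x) he'
    simp only [eval_mul, eval_comp, hx, hc0, mul_zero] at h1
    obtain ⟨a, b, hab⟩ := hc
    have h2 := congrArg (fun p => p.eval c) hab
    simp only [eval_add, eval_mul, eval_one, hc0, ← h1, mul_zero, add_zero] at h2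
    exact zero_ne_one h2

/-- `(scaleRoots p h).eval f` -/
theorem al_hom (p f h : ℂ[X]) (hh : h ≠ 0) :
    al ((scaleRoots (p.map C) h).eval f) = al h ^ p.natDegree * aeval (al f / al h) p := by
  have h1 : al ((scaleRoots (p.map C) h).eval f) =
      (scaleRoots (p.map C) h).eval₂ al (al h * (al f / al h)) := by
    rw [mul_div_cancel₀ _ (al_ne hh), eval₂_at_apply]
  rw [h1, scaleRoots_eval₂_mul, natDegree_map, eval₂_map]
  rfl

theorem hom_eval (p f h : ℂ[X]) {x c : ℂ} (hx : f.eval x = c * h.eval x) :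
    ((scaleRoots (p.map C) h).eval f).eval x = h.eval x ^ p.natDegree * p.eval c := by
  have h1 : ((scaleRoots (p.map C) h).eval f).eval x =
      (scaleRoots (p.map C) h).eval₂ (evalRingHom x) (evalRingHom x h * c) := by
    rw [coe_evalRingHom, mul_comm, ← hx]
    exact (eval₂_at_apply (evalRingHom x) f).symm
  rw [h1, scaleRoots_eval₂_mul, natDegree_map, eval₂_map]
  have h2 : (evalRingHom x).comp C = RingHom.id ℂ := by
    ext z
    simp
  rw [h2]
  rfl

theorem hom_eval_zero (p f h : ℂ[X]) {x : ℂ} (hx : h.eval x = 0) :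
    ((scaleRoots (p.map C) h).eval f).eval x = p.leadingCoeff * f.eval x ^ p.natDegree := by
  have e : (scaleRoots (p.map C) h).eval f = ∑ i ∈ Finset.range ((scaleRoots (p.map C) h).natDegree + 1),
      (scaleRoots (p.map C) h).coeff i * f ^ i := eval_eq_sum_range _
  rw [e, eval_finsetSum, natDegree_scaleRoots, natDegree_map]
  rw [Finset.sum_eq_single p.natDegree]
  · rw [coeff_scaleRoots, natDegree_map, Nat.sub_self, pow_zero, mul_one, coeff_map, eval_mul,
      eval_C, eval_pow]
    rfl
  · intro i hi hne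
    rw [coeff_scaleRoots, natDegree_map, eval_mul, eval_mul, eval_pow, hx, zero_pow, mul_zero,
      zero_mul]
    have : i < p.natDegree + 1 := Finset.mem_range.1 hi
    omega
  · intro hh
    exact absurd (Finset.mem_range.2 (Nat.lt_succ_self _)) hh

/-- **Lüroth's theorem for fields which contain a nonconstant polynomial.** -/
theorem exists_gen {E : IntermediateField ℂ (RatFunc ℂ)} {F : ℂ[X]} (hF : 0 < F.natDegree)
    (hE : al F ∈ E) : ∃ u : ℂ[X], 0 < u.natDegree ∧ E = ℂ⟮al u⟯ := by
  set g := RatFunc.Luroth.generator E with hg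
  have hEg : E = ℂ⟮g⟯ := RatFunc.Luroth.eq_adjoin_generator
  set f := g.num with hf
  set h := g.denom with hh
  have hh0 : h ≠ 0 := RatFunc.denom_ne_zero g
  have hgd : g = al f / al h := (RatFunc.num_div_denom g).symm
  have hcop : IsCoprime f h := RatFunc.isCoprime_num_denom g
  have hF0 : F ≠ 0 := ne_zero_of_natDegree_gt hF
  have hFC : ∀ c : ℂ, F ≠ C c := by
    rintro c rfl
    rw [natDegree_C] at hF
    exact lt_irrefl _ hF
  have hE' : al F ∈ ℂ⟮g⟯ := hEg ▸ hE
  obtain ⟨r, s, hrs⟩ := (mem_adjoin_simple_iff ℂ _).1 hE'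
  obtain ⟨r', s', hc, hs0, he⟩ := exists_coprime (al_ne hF0) hrs
  -- the polynomial equation
  have heq : F * h ^ r'.natDegree * (scaleRoots (s'.map C) h).eval f =
      h ^ s'.natDegree * (scaleRoots (r'.map C) h).eval f := by
    apply al_inj
    rw [map_mul, map_mul, map_mul, map_pow, map_pow, al_hom _ _ _ hh0, al_hom _ _ _ hh0, ← hgd]
    linear_combination (al h ^ r'.natDegree * al h ^ s'.natDegree) * he
  have hr0 : r' ≠ 0 := by
    rintro rfl
    rw [map_zero] at he
    rcases mul_eq_zero.1 he with h1 | h1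
    · exact al_ne hF0 h1
    · -- `aeval g s' = 0` with `s'` a unit
      rw [isCoprime_zero_left] at hc
      obtain ⟨κ, hκ, hκ2⟩ := isUnit_iff.1 hc
      rw [← hκ2, aeval_C] at h1
      exact hκ.ne_zero ((algebraMap ℂ (RatFunc ℂ)).injective (by rw [h1, map_zero]))
  by_cases hdeg : h.natDegree = 0
  · -- `g` is a polynomial
    have h1 : h = 1 := by
      have h2 : h.Monic := RatFunc.monic_denom g
      exact eq_one_of_monic_natDegree_zero h2 hdeg
    have h2 : g = al f := by rw [hgd, h1, map_one, div_one]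
    refine ⟨f, ?_, by rw [← h2, hEg]⟩
    by_contra hcon
    obtain ⟨c, hc'⟩ := natDegree_eq_zero.1 (Nat.eq_zero_of_not_pos hcon)
    rw [h2, ← hc'] at he
    have h3 : ∀ p : ℂ[X], aeval (al (C c)) p = al (C (p.eval c)) := by
      intro p
      rw [aeval_al, comp_C]
    rw [h3, h3, ← map_mul] at he
    have h4 := al_inj he
    by_cases h5 : s'.eval c = 0
    · rw [h5, C_0, mul_zero] at h4
      have h6 : r'.eval c = 0 := by
        apply C_injective (R := ℂ)
        rw [← h4, C_0]
      obtain ⟨a, b, hab⟩ := hc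
      have h7 := congrArg (fun p => p.eval c) hab
      simp only [eval_add, eval_mul, eval_one, h5, h6, mul_zero, add_zero] at h7
      exact zero_ne_one h7
    · refine hFC (r'.eval c * (s'.eval c)⁻¹) ?_
      rw [C_mul, ← h4, mul_assoc, ← C_mul, mul_inv_cancel₀ h5, C_1, mul_one]
  · -- the other case
    obtain ⟨ρ, hρ⟩ := exists_eval_eq (Nat.pos_of_ne_zero hdeg) 0
    have hfρ : f.eval ρ ≠ 0 := by
      intro h1
      obtain ⟨a, b, hab⟩ := hcop
      have h7 := congrArg (fun p => p.eval ρ) hab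
      simp only [eval_add, eval_mul, eval_one, hρ, h1, mul_zero, add_zero] at h7
      exact zero_ne_one h7
    have hle : r'.natDegree ≤ s'.natDegree := by
      by_contra hlt
      push Not at hlt
      obtain ⟨k, hk⟩ := Nat.exists_eq_add_of_lt hlt
      have h1 : F * h ^ (k + 1) * (scaleRoots (s'.map C) h).eval f =
          (scaleRoots (r'.map C) h).eval f := by
        apply mul_left_cancel₀ (pow_ne_zero s'.natDegree hh0)
        rw [← heq, hk]
        ring
      have h2 := congrArg (fun p => p.eval ρ) h1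
      simp only [eval_mul, eval_pow, hρ, hom_eval_zero _ _ _ hρ] at h2
      rw [zero_pow (Nat.succ_ne_zero k), mul_zero, zero_mul] at h2
      exact mul_ne_zero (leadingCoeff_ne_zero.2 hr0) (pow_ne_zero _ hfρ) h2.symm
    have hsdeg : 0 < s'.natDegree := by
      by_contra hcon
      have h1 : s'.natDegree = 0 := Nat.eq_zero_of_not_pos hcon
      have h2 : r'.natDegree = 0 := by omega
      obtain ⟨κ, hκ⟩ := natDegree_eq_zero.1 h1
      obtain ⟨κ', hκ'⟩ := natDegree_eq_zero.1 h2
      have hκ0 : κ ≠ 0 := by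
        rintro rfl
        rw [C_0] at hκ
        exact hs0 hκ.symm
      rw [← hκ, ← hκ', aeval_C, aeval_C] at he
      refine hFC (κ' * κ⁻¹) (al_inj ?_)
      have h3 : al (C (κ' * κ⁻¹)) = algebraMap ℂ (RatFunc ℂ) κ' * (algebraMap ℂ (RatFunc ℂ) κ)⁻¹ := by
        rw [← map_inv₀, ← map_mul]
        rfl
      rw [h3, ← he, mul_assoc, mul_inv_cancel₀, mul_one]
      exact (_root_.map_ne_zero _).2 hκ0
    obtain ⟨c, hc0⟩ := exists_eval_eq hsdeg 0
    have hrc : r'.eval c ≠ 0 := by
      intro h1
      obtain ⟨a, b, hab⟩ := hc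
      have h7 := congrArg (fun p => p.eval c) hab
      simp only [eval_add, eval_mul, eval_one, hc0, h1, mul_zero, add_zero] at h7
      exact zero_ne_one h7
    -- `f - c h` has no zero
    have hconst : (f - C c * h).natDegree = 0 := by
      by_contra hcon
      obtain ⟨x, hx⟩ := exists_eval_eq (Nat.pos_of_ne_zero hcon) 0
      rw [eval_sub, eval_mul, eval_C, sub_eq_zero] at hx
      have hhx : h.eval x ≠ 0 := by
        intro h1
        rw [h1, mul_zero] at hx
        obtain ⟨a, b, hab⟩ := hcop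
        have h7 := congrArg (fun p => p.eval x) hab
        simp only [eval_add, eval_mul, eval_one, h1, hx, mul_zero, add_zero] at h7
        exact zero_ne_one h7
      have h2 := congrArg (fun p => p.eval x) heq
      simp only [eval_mul, eval_pow, hom_eval _ _ _ hx, hc0, mul_zero] at h2
      exact mul_ne_zero (pow_ne_zero _ hhx) (mul_ne_zero (pow_ne_zero _ hhx) hrc) h2.symm
    obtain ⟨κ, hκ⟩ := natDegree_eq_zero.1 hconst
    have hκ0 : κ ≠ 0 := by
      rintro rfl
      rw [C_0] at hκ
      have h1 : f = C c * h := (sub_eq_zero.1 hκ.symm)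
      apply hfρ
      rw [h1, eval_mul, hρ, mul_zero]
    have hal : al f = algebraMap ℂ (RatFunc ℂ) κ + algebraMap ℂ (RatFunc ℂ) c * al h := by
      have h1 : f = C κ + C c * h := by rw [hκ]; ring
      conv_lhs => rw [h1, map_add, map_mul]
      rfl
    refine ⟨h, Nat.pos_of_ne_zero hdeg, ?_⟩
    rw [hEg]
    apply le_antisymm
    · rw [adjoin_simple_le_iff, hgd, hal]
      have h1 : al h ∈ ℂ⟮al h⟯ := mem_adjoin_simple_self ℂ _
      exact div_mem (add_mem (IntermediateField.algebraMap_mem _ _) (mul_mem (IntermediateField.algebraMap_mem _ _) h1)) h1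
    · rw [adjoin_simple_le_iff]
      have h1 : g ∈ ℂ⟮g⟯ := mem_adjoin_simple_self ℂ _
      have h2 : al h = algebraMap ℂ (RatFunc ℂ) κ / (g - algebraMap ℂ (RatFunc ℂ) c) := by
        have h3 : g - algebraMap ℂ (RatFunc ℂ) c = algebraMap ℂ (RatFunc ℂ) κ / al h := by
          rw [hgd, hal]
          have := al_ne hh0
          field_simp
          ring
        rw [h3]
        have h4 : algebraMap ℂ (RatFunc ℂ) κ ≠ 0 := (_root_.map_ne_zero _).2 hκ0
        have := al_ne hh0
        field_simp
      rw [h2]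
      exact div_mem (IntermediateField.algebraMap_mem _ _) (sub_mem h1 (IntermediateField.algebraMap_mem _ _))

end Pool.Agent.Run7.h153.DG
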