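import Pool.Agent.Run7.h153.DG.Per
import Pool.Agent.TH826.UH.Tor
set_option autoImplicit false

/-!
Loops on the curve `z² - F(x) z + 1 = 0` over a field with a complex embedding.
-/

namespace Pool.Agent.Run7.h153.DG

open MeasureTheory Set Metric Polynomial

open Pool.Agent.TH826.MK (Torus symb)

open Pool.Agent.TH826.HD (PRing POpen ppol pz toP pent peqn pz_eq)

open Pool.Agent.TH826.UH (PtS mkS mkS_e mkS_reg)

variable {K : Type*} [Field K] {F : K[X]}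

/-- The function `x` on the loop `Γ`. -/
noncomputable def lx (Γ : Torus (PRing F) 1) (s : ℝ) : ℂ := Γ.e (fun _ => s) (ppol F X)

/-- The function `z` on the loop `Γ`. -/
noncomputable def lz (Γ : Torus (PRing F) 1) (s : ℝ) : ℂ := Γ.e (fun _ => s) (pz F)

/-- The integral of `x ^ j dx / (2 z - F(x))` over the loop `Γ`; the differential
`dx / (2 z - F(x))` is `dx / y` for the equation `y² = F(x)² - 4` of the curve. -/
noncomputable def period (σ : K →+* ℂ) (Γ : Torus (PRing F) 1) (j : ℕ) : ℂ :=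
  ∫ s in (0 : ℝ)..1, lx Γ s ^ j * deriv (lx Γ) s / (2 * lz Γ s - F.eval₂ σ (lx Γ s))

section

variable {σ : K →+* ℂ} {Γ : Torus (PRing F) 1}

theorem e_ppol (hΓ : ∀ θ (c : K), Γ.e θ (ppol F (C c)) = σ c) (θ : Fin 1 → ℝ) (p : K[X]) :
    Γ.e θ (ppol F p) = p.eval₂ σ (Γ.e θ (ppol F X)) := by
  have h : (Γ.e θ).comp (ppol F) = Polynomial.eval₂RingHom σ (Γ.e θ (ppol F X)) := by
    refine Polynomial.ringHom_ext (fun c => ?_) ?_
    · rw [coe_eval₂RingHom, eval₂_C]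
      exact hΓ θ c
    · rw [coe_eval₂RingHom, eval₂_X]
      rfl
  exact congrArg (fun h : K[X] →+* ℂ => h p) h

theorem cont_line : ContDiff ℝ 2 fun s : ℝ => (fun _ => s : Fin 1 → ℝ) :=
  contDiff_pi.2 fun _ => contDiff_id

theorem line_add (s : ℝ) : (fun _ => s + 1 : Fin 1 → ℝ) = (fun _ => s) + Pi.single 0 1 := by
  funext i
  rw [Subsingleton.elim i 0, Pi.add_apply, Pi.single_eq_same]

/-- the loop -/
noncomputable def toLp (hΓ : ∀ θ (c : K), Γ.e θ (ppol F (C c)) = σ c)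
    (hz : ∀ θ, Γ.e θ (pz F) ^ 2 ≠ 1) : Lp (F.map σ) where
  X := lx Γ
  Z := lz Γ
  hX := (Γ.smooth (ppol F Polynomial.X)).comp cont_line
  hZ := (Γ.smooth (pz F)).comp cont_line
  perX t := by
    unfold lx
    rw [line_add, Γ.periodic]
  perZ t := by
    unfold lz
    rw [line_add, Γ.periodic]
  eq t := by
    have h := congrArg (Γ.e fun _ => t) (pz_eq F)
    rw [map_add, map_sub, map_mul, map_pow, map_one, map_zero, e_ppol hΓ] at h
    rw [eval_map]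
    exact h
  ne t := hz _

theorem per_eq (hΓ : ∀ θ (c : K), Γ.e θ (ppol F (C c)) = σ c)
    (hz : ∀ θ, Γ.e θ (pz F) ^ 2 ≠ 1) (j : ℕ) :
    (toLp hΓ hz).per (Polynomial.X ^ j) = period σ Γ j := by
  unfold Lp.per period
  refine intervalIntegral.integral_congr fun s _ => ?_
  show ((Polynomial.X ^ j : ℂ[X]).eval (lx Γ s)) * (toLp hΓ hz).om s = _
  rw [eval_pow, eval_X]
  unfold Lp.om
  have h1 := (toLp hΓ hz).inv_eq s
  rw [eval_map] at h1
  have h2 : (toLp hΓ hz).y s = 2 * lz Γ s - F.eval₂ σ (lx Γ s) := by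
    unfold Lp.y
    have h3 : (toLp hΓ hz).Z s + ((toLp hΓ hz).Z s)⁻¹ = F.eval₂ σ (lx Γ s) := h1
    have h4 : (toLp hΓ hz).Z s = lz Γ s := rfl
    rw [← h3, h4]
    ring
  rw [h2]
  show _ * (deriv (lx Γ) s / _) = _
  rw [mul_div_assoc]

/-- the loop in the open part -/
theorem exists_lift (hΓ : ∀ θ (c : K), Γ.e θ (ppol F (C c)) = σ c)
    (hz : ∀ θ, Γ.e θ (pz F) ^ 2 ≠ 1) {n : ℕ} {b : Fin n → K}
    (hb : ∀ θ m, Γ.e θ (ppol F X) ≠ σ (b m)) :
    ∃ Γ' : Torus (POpen F b) 1, (∀ θ r, Γ'.e θ (toP F b r) = Γ.e θ r) ∧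
      ∀ m l, Γ'.reg (symb (pent F b m l)) = (toLp hΓ hz).rho (σ (b m)) -
        (toLp hΓ hz).rho (σ (b l)) := by
  set L := toLp hΓ hz with hL
  have hP : ∀ t, PtS σ F b (L.X t) (L.Z t) := fun t => by
    refine ⟨?_, fun m => hb _ m⟩
    have h := L.eq t
    rw [eval_map] at h
    exact h
  refine ⟨mkS L.hX L.nz.smooth L.perX L.perZ hP, fun θ r => ?_, fun m l => ?_⟩
  · rw [mkS_e, PtS.evA_toP]
    have hθ : (fun _ => θ 0 : Fin 1 → ℝ) = θ := by
      funext i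
      rw [Subsingleton.elim i 0]
    have h1 : (PtS.evB (hP (θ 0))).comp (AdjoinRoot.mk (peqn F)) =
        (Γ.e θ).comp (AdjoinRoot.mk (peqn F)) := by
      refine Polynomial.ringHom_ext (fun p => ?_) ?_
      · show PtS.evB (hP (θ 0)) (ppol F p) = Γ.e θ (ppol F p)
        rw [PtS.evB_ppol, e_ppol hΓ]
        show p.eval₂ σ (lx Γ (θ 0)) = _
        unfold lx
        rw [hθ]
      · show PtS.evB (hP (θ 0)) (AdjoinRoot.mk (peqn F) Polynomial.X) =
          Γ.e θ (AdjoinRoot.mk (peqn F) Polynomial.X)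
        rw [AdjoinRoot.mk_X]
        show PtS.evB (hP (θ 0)) (pz F) = Γ.e θ (pz F)
        rw [PtS.evB_pz]
        show lz Γ (θ 0) = _
        unfold lz
        rw [hθ]
    obtain ⟨p, hp⟩ := AdjoinRoot.mk_surjective (g := peqn F) r
    rw [← hp]
    exact congrArg (fun h : K[X][X] →+* ℂ => h p) h1
  · rw [mkS_reg L.hX L.nz L.perX L.perZ hP m l]
    rfl

end

/-- the set of the points is not empty -/
theorem tors_nonempty {P : ℂ[X]} {β₀ : ℂ} {r t₀ : ℝ} (hr : 0 < r) (h0 : P.eval β₀ = t₀)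
    (ht₀ : -2 < t₀ ∧ t₀ < 2) (h1 : (derivative P).eval β₀ ≠ 0) :
    {β | β ∈ ball β₀ r ∧ Tors P β}.Nonempty := by
  by_contra hcon
  rw [Set.not_nonempty_iff_eq_empty] at hcon
  obtain ⟨δ, c, hδ, -, hc⟩ := exists_arc hr h0 h1
  have h2 := const_of_tors (u := fun _ => (0 : ℝ)) (κ := 1) ht₀ continuousAt_const (by
    filter_upwards [ball_mem_nhds t₀ hδ] with t ht hq
    obtain ⟨q, hq⟩ := hq
    rw [mem_ball, Real.dist_eq] at ht
    obtain ⟨k1, k2, -, -⟩ := hc t ht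
    have h3 : c t ∈ ({β | β ∈ ball β₀ r ∧ Tors P β} : Set ℂ) :=
      ⟨k2, tors_cos q (by rw [k1, hq])⟩
    rw [hcon] at h3
    exact absurd h3 (Set.notMem_empty _))
  exact zero_ne_one h2

/-- **The main theorem for loops.** -/
theorem main_loops {P : ℂ[X]} (hP : 0 < P.natDegree)
    (h4 : ∀ ξ : ℂ, (derivative P).eval ξ = 0 → P.eval ξ ^ 2 ≠ 4) {d : ℕ} (L : Fin d → Lp P)
    {T : Set ℂ} (hT : T.Nonempty) {r : ℝ} (hr : 0 < r)
    (hTP : ∀ p ∈ T, (∃ t : ℝ, |t| < 2 ∧ P.eval p = t) ∧ (derivative P).eval p ≠ 0)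
    (hfar : ∀ p ∈ T, ∀ l t, r ≤ ‖(L l).X t - p‖)
    (hdec : ∀ (A : ℝ[X]) (u : ℂ[X]), 2 ≤ A.natDegree → P = (A.map (algebraMap ℝ ℂ)).comp u →
      ∃ p ∈ T, (u.eval p).im ≠ 0)
    (hind : LinearIndependent ℝ fun (l : Fin d) (j : Fin (P.natDegree - 1)) =>
      (L l).per (Polynomial.X ^ (j : ℕ))) :
    ∃ b : Fin (d + 1) → ℂ, (∀ m, (∃ p ∈ T, b m ∈ ball p r) ∧ Tors P (b m)) ∧
      (Matrix.of fun l k : Fin d => (L l).rho (b k.succ) - (L l).rho (b 0)).det ≠ 0 := by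
  have hne : {β | (∃ p ∈ T, β ∈ ball p r) ∧ Tors P β}.Nonempty := by
    obtain ⟨p, hp⟩ := hT
    obtain ⟨⟨t₀, ht₀, h0⟩, h1⟩ := hTP p hp
    obtain ⟨β, hβ1, hβ2⟩ := tors_nonempty hr h0 (abs_lt.1 ht₀) h1
    exact ⟨β, ⟨p, hp, hβ1⟩, hβ2⟩
  refine exists_pts (fun β l => (L l).rho β) hne fun s κ hκ => ?_
  have h2 : ∀ j : Fin (P.natDegree - 1), ∑ l, (s l : ℂ) * (L l).per (Polynomial.X ^ (j : ℕ)) = 0 := by
    intro j
    refine periods_zero hP h4 L s hT hr hTP hfar hdec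
      (fun p hp β hβ hβT => hκ β ⟨⟨p, hp, hβ⟩, hβT⟩) ?_
    rw [natDegree_derivative]
    exact j.2
  funext l
  refine Fintype.linearIndependent_iff.1 hind s ?_ l
  funext j
  rw [Finset.sum_apply, Pi.zero_apply, ← h2 j]
  refine Finset.sum_congr rfl fun l _ => ?_
  rw [Pi.smul_apply, Complex.real_smul]

end Pool.Agent.Run7.h153.DG
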