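import Pool.Agent.Run7.h153.DG.Pol
set_option autoImplicit false

/-!
The order of `P'³ D Ψ` at the critical points, and the conclusion that the periods vanish.
-/

namespace Pool.Agent.Run7.h153.DG

open Polynomial

section biv

theorem biv_ext {M N : ℂ[X][X]} (h : ∀ β x : ℂ, (M.map (evalRingHom β)).eval x =
    (N.map (evalRingHom β)).eval x) : M = N := by
  ext1 i
  refine Polynomial.funext fun β => ?_
  have h1 : M.map (evalRingHom β) = N.map (evalRingHom β) := Polynomial.funext (h β)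
  have h2 := congrArg (fun p => p.coeff i) h1
  simpa [coeff_map] using h2

/-- the coefficientwise derivative -/
noncomputable def Db (M : ℂ[X][X]) : ℂ[X][X] :=
  ∑ i ∈ M.support, monomial i (derivative (M.coeff i))

theorem coeff_Db (M : ℂ[X][X]) (n : ℕ) : (Db M).coeff n = derivative (M.coeff n) := by
  unfold Db
  rw [finsetSum_coeff]
  simp only [coeff_monomial]
  rw [Finset.sum_ite_eq']
  split_ifs with h
  · rfl
  · rw [notMem_support_iff.1 h, map_zero]

theorem Db_mul (M N : ℂ[X][X]) : Db (M * N) = Db M * N + M * Db N := by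
  ext1 n
  rw [coeff_Db, coeff_add, coeff_mul, coeff_mul, coeff_mul, map_sum, ← Finset.sum_add_distrib]
  refine Finset.sum_congr rfl fun i _ => ?_
  rw [derivative_mul, coeff_Db, coeff_Db]

theorem Db_sub (M N : ℂ[X][X]) : Db (M - N) = Db M - Db N := by
  ext1 n
  rw [coeff_Db, coeff_sub, coeff_sub, coeff_Db, coeff_Db, derivative_sub]

theorem Db_map (p : ℂ[X]) : Db (p.map C) = 0 := by
  ext1 n
  rw [coeff_Db, coeff_map, coeff_zero, derivative_C]

theorem Db_C (p : ℂ[X]) : Db (C p) = C (derivative p) := by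
  ext1 n
  rw [coeff_Db, coeff_C, coeff_C]
  split_ifs
  · rfl
  · rw [map_zero]

theorem Db_X : Db X = 0 := by
  have := Db_map X
  rwa [map_X] at this

/-- the application of a functional to the outer variable -/
noncomputable def Ph (φ : ℂ[X] →ₗ[ℂ] ℂ) (M : ℂ[X][X]) : ℂ[X] :=
  M.sum fun i a => a * C (φ (X ^ i))

theorem Ph_eq (φ : ℂ[X] →ₗ[ℂ] ℂ) (M : ℂ[X][X]) {n : ℕ} (h : M.natDegree < n) :
    Ph φ M = ∑ i ∈ Finset.range n, M.coeff i * C (φ (X ^ i)) := by
  unfold Ph
  exact sum_over_range' _ (fun i => by rw [zero_mul]) n h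

theorem Ph_add (φ : ℂ[X] →ₗ[ℂ] ℂ) (M N : ℂ[X][X]) : Ph φ (M + N) = Ph φ M + Ph φ N := by
  have h1 := natDegree_add_le M N
  rw [Ph_eq φ (M + N) (n := max M.natDegree N.natDegree + 1) (by omega),
    Ph_eq φ M (n := max M.natDegree N.natDegree + 1) (by omega),
    Ph_eq φ N (n := max M.natDegree N.natDegree + 1) (by omega), ← Finset.sum_add_distrib]
  refine Finset.sum_congr rfl fun i _ => ?_
  rw [coeff_add, add_mul]

theorem Ph_C_mul (φ : ℂ[X] →ₗ[ℂ] ℂ) (a : ℂ[X]) (M : ℂ[X][X]) : Ph φ (C a * M) = a * Ph φ M := by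
  have h1 := natDegree_C_mul_le a M
  rw [Ph_eq φ (C a * M) (n := M.natDegree + 1) (by omega), Ph_eq φ M (n := M.natDegree + 1)
    (by omega), Finset.mul_sum]
  refine Finset.sum_congr rfl fun i _ => ?_
  rw [coeff_C_mul, mul_assoc]

theorem Ph_sum (φ : ℂ[X] →ₗ[ℂ] ℂ) {ι : Type*} (s : Finset ι) (M : ι → ℂ[X][X]) :
    Ph φ (∑ i ∈ s, M i) = ∑ i ∈ s, Ph φ (M i) := by
  classical
  induction s using Finset.induction_on with
  | empty => rw [Finset.sum_empty, Finset.sum_empty, Ph_eq φ 0 (n := 1) (by simp)]; simp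
  | insert a s ha ih => rw [Finset.sum_insert ha, Finset.sum_insert ha, Ph_add, ih]

theorem Ph_monomial (φ : ℂ[X] →ₗ[ℂ] ℂ) (a : ℂ[X]) (i : ℕ) :
    Ph φ (C a * X ^ i) = a * C (φ (X ^ i)) := by
  unfold Ph
  rw [C_mul_X_pow_eq_monomial, sum_monomial_index _ _ (by rw [zero_mul])]

theorem Ph_Db (φ : ℂ[X] →ₗ[ℂ] ℂ) (M : ℂ[X][X]) : Ph φ (Db M) = derivative (Ph φ M) := by
  rw [Ph_eq φ (Db M) (n := max M.natDegree (Db M).natDegree + 1) (by omega),
    Ph_eq φ M (n := max M.natDegree (Db M).natDegree + 1) (by omega), map_sum]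
  refine Finset.sum_congr rfl fun i _ => ?_
  rw [coeff_Db, derivative_mul, derivative_C, mul_zero, add_zero]

/-- the quotient `(D(x) - D(β)) / (x - β)` -/
noncomputable def qq (D : ℂ[X]) : ℂ[X][X] :=
  ∑ k ∈ Finset.range (D.natDegree + 1), ∑ i ∈ Finset.range k,
    C (C (D.coeff k) * X ^ (k - 1 - i)) * X ^ i

theorem qq_spec (D : ℂ[X]) : qq D * (X - C X) = D.map C - C D := by
  have h1 : D.map (C : ℂ →+* ℂ[X]) = ∑ k ∈ Finset.range (D.natDegree + 1),
      C (C (D.coeff k)) * X ^ k := by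
    conv_lhs => rw [D.as_sum_range_C_mul_X_pow]
    rw [Polynomial.map_sum]
    refine Finset.sum_congr rfl fun k _ => ?_
    rw [Polynomial.map_mul, Polynomial.map_pow, map_X, map_C]
  have h2 : (C D : ℂ[X][X]) = ∑ k ∈ Finset.range (D.natDegree + 1),
      C (C (D.coeff k)) * (C X) ^ k := by
    conv_lhs => rw [D.as_sum_range_C_mul_X_pow]
    rw [map_sum]
    refine Finset.sum_congr rfl fun k _ => ?_
    rw [map_mul, map_pow]
  have h3 : ∀ k, (∑ i ∈ Finset.range k, C (C (D.coeff k) * X ^ (k - 1 - i)) * X ^ i : ℂ[X][X]) =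
      C (C (D.coeff k)) * ∑ i ∈ Finset.range k, X ^ i * (C X) ^ (k - 1 - i) := by
    intro k
    rw [Finset.mul_sum]
    refine Finset.sum_congr rfl fun i _ => ?_
    rw [map_mul, map_pow, mul_assoc, mul_comm ((C X : ℂ[X][X]) ^ (k - 1 - i))]
  have h4 : qq D = ∑ k ∈ Finset.range (D.natDegree + 1),
      C (C (D.coeff k)) * ∑ i ∈ Finset.range k, X ^ i * (C X) ^ (k - 1 - i) :=
    Finset.sum_congr rfl fun k _ => h3 k
  have h5 : ∀ k, (C (C (D.coeff k)) * ∑ i ∈ Finset.range k, X ^ i * (C X) ^ (k - 1 - i) : ℂ[X][X]) *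
      (X - C X) = C (C (D.coeff k)) * X ^ k - C (C (D.coeff k)) * (C X) ^ k := by
    intro k
    have h6 : (∑ i ∈ Finset.range k, X ^ i * (C X) ^ (k - 1 - i) : ℂ[X][X]) * (X - C X) =
      X ^ k - (C X) ^ k := (Commute.all _ _).geom_sum₂_mul k
    rw [mul_assoc, h6, mul_sub]
  rw [h4, Finset.sum_mul, h1, h2, ← Finset.sum_sub_distrib]
  exact Finset.sum_congr rfl fun k _ => h5 k

theorem Db_qq (D : ℂ[X]) : Db (qq D) * (X - C X) = qq D - C (derivative D) := by
  have h1 := congrArg Db (qq_spec D)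
  rw [Db_mul, Db_sub, Db_sub, Db_X, Db_C, Db_C, Db_map, derivative_X, C_1] at h1
  linear_combination h1

theorem coeff_Ph_qq (φ : ℂ[X] →ₗ[ℂ] ℂ) (D : ℂ[X]) (m : ℕ) : (Ph φ (qq D)).coeff m =
    ∑ k ∈ Finset.range (D.natDegree + 1), ∑ i ∈ Finset.range k,
      if m = k - 1 - i then D.coeff k * φ (X ^ i) else 0 := by
  unfold qq
  rw [Ph_sum, finsetSum_coeff]
  refine Finset.sum_congr rfl fun k _ => ?_
  rw [Ph_sum, finsetSum_coeff]
  refine Finset.sum_congr rfl fun i _ => ?_
  rw [Ph_monomial, coeff_mul_C, coeff_C_mul, coeff_X_pow]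
  split_ifs
  · rw [mul_one]
  · rw [mul_zero, zero_mul]

theorem degree_Ph_qq (φ : ℂ[X] →ₗ[ℂ] ℂ) {D : ℂ[X]} (hD : D ≠ 0) :
    (Ph φ (qq D)).degree < D.degree := by
  rw [degree_eq_natDegree hD, degree_lt_iff_coeff_zero]
  intro m hm
  rw [coeff_Ph_qq]
  refine Finset.sum_eq_zero fun k hk => Finset.sum_eq_zero fun i hi => if_neg ?_
  have h1 := Finset.mem_range.1 hk
  have h2 := Finset.mem_range.1 hi
  omega

theorem phi_zero (φ : ℂ[X] →ₗ[ℂ] ℂ) {D : ℂ[X]} (hD : D ≠ 0) (h : Ph φ (qq D) = 0) :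
    ∀ j, j < D.natDegree → φ (X ^ j) = 0 := by
  intro j
  induction j using Nat.strong_induction_on with
  | _ j ih =>
    intro hj
    have h1 := coeff_Ph_qq φ D (D.natDegree - 1 - j)
    rw [h, coeff_zero, Finset.sum_eq_single D.natDegree, Finset.sum_eq_single j, if_pos rfl] at h1
    · exact (mul_eq_zero.1 h1.symm).resolve_left (leadingCoeff_ne_zero.2 hD)
    · intro i hi hne
      refine if_neg ?_
      have := Finset.mem_range.1 hi
      omega
    · intro hh
      exact absurd (Finset.mem_range.2 hj) hh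
    · intro k hk hne
      refine Finset.sum_eq_zero fun i hi => ?_
      have h2 := Finset.mem_range.1 hk
      have h3 := Finset.mem_range.1 hi
      split_ifs with h4
      · rw [ih i (by omega) (by omega), mul_zero]
      · rfl
    · intro hh
      exact absurd (Finset.mem_range.2 (Nat.lt_succ_self _)) hh

/-- **The structure of the kernel.** -/
theorem ker_eq (P : ℂ[X]) : ∃ N : ℂ[X][X], ker P = C (A1 P) * qq (derivative P) +
    C (A2 P) * Db (qq (derivative P)) + C (derivative P ^ 2) * N := by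
  set c : ℂ →+* ℂ[X] := C with hc
  have ev : ∀ p : ℂ[X], (p.map c).eval X = p := by
    intro p
    rw [eval_map, hc, eval₂_C_X]
  set num : ℂ[X][X] := C (P * derivative P) * (X - C X) + C (P ^ 2 - C 4) +
    P.map c * (derivative P).map c * (X - C X) - ((P.map c) ^ 2 - C (C 4)) with hnum
  have h0 : num.eval X = 0 := by
    rw [hnum]
    simp only [eval_add, eval_mul, eval_sub, eval_C, eval_X, eval_pow, ev, sub_self, mul_zero,
      zero_add, add_zero]
  have h1 : (derivative num).eval X = 0 := by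
    rw [hnum]
    simp only [derivative_add, derivative_mul, derivative_sub, derivative_C, derivative_X,
      derivative_pow, derivative_map, eval_add, eval_mul, eval_sub, eval_C, eval_X, eval_pow, ev,
      sub_self, mul_zero, zero_sub, zero_add, zero_mul, add_zero, sub_zero, mul_one, eval_one,
      eval_zero, Nat.cast_ofNat, eval_ofNat, map_ofNat, derivative_ofNat]
    ring_nf
  obtain ⟨N, hN⟩ := sq_dvd h0 h1
  refine ⟨N, ?_⟩
  have k1 : ker P * (X - C X) ^ 2 = C (A1 P) * (derivative P).map c * (X - C X) +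
      C (A2 P) * (derivative P).map c + C (derivative P ^ 2) *
        (P.map c * (derivative P).map c * (X - C X) - ((P.map c) ^ 2 - C (C 4))) := by
    refine biv_ext fun β x => ?_
    have ev2 : ∀ p : ℂ[X], ((p.map c).map (evalRingHom β)).eval x = p.eval x := by
      intro p
      rw [Polynomial.map_map]
      have : (evalRingHom β).comp c = RingHom.id ℂ := by
        ext z
        simp [hc]
      rw [this, Polynomial.map_id]
    simp only [Polynomial.map_add, Polynomial.map_mul, Polynomial.map_sub, Polynomial.map_pow,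
      map_C, map_X, eval_add, eval_mul, eval_sub, eval_pow, eval_C, eval_X, ev2,
      coe_evalRingHom]
    exact ker_spec P β x
  have k2 := qq_spec (derivative P)
  have k3 := Db_qq (derivative P)
  rw [hnum] at hN
  have hne : (X - C X : ℂ[X][X]) ^ 2 ≠ 0 := pow_ne_zero _ (X_sub_C_ne_zero _)
  apply mul_right_cancel₀ hne
  rw [k1]
  have e1 : (C (A1 P) : ℂ[X][X]) = C P * C (derivative P) ^ 2 - (C P ^ 2 - C (C 4)) *
      C (derivative (derivative P)) := by
    unfold A1
    rw [map_sub, map_mul, map_mul, map_sub, map_pow, map_pow]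
  have e2 : (C (A2 P) : ℂ[X][X]) = (C P ^ 2 - C (C 4)) * C (derivative P) := by
    unfold A2
    rw [map_mul, map_sub, map_pow]
  rw [map_mul, map_sub, map_pow] at hN
  rw [e1, e2, map_pow]
  linear_combination (-(C P * C (derivative P) ^ 2 - (C P ^ 2 - C (C 4)) *
      C (derivative (derivative P))) * (X - C X) - (C P ^ 2 - C (C 4)) * C (derivative P)) * k2 -
    ((C P ^ 2 - C (C 4)) * C (derivative P)) * (X - C X) * k3 + C (derivative P) ^ 2 * hN

theorem Ph_ker (φ : ℂ[X] →ₗ[ℂ] ℂ) (P : ℂ[X]) : ∃ n : ℂ[X], Ph φ (ker P) =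
    A1 P * Ph φ (qq (derivative P)) + A2 P * derivative (Ph φ (qq (derivative P))) +
      derivative P ^ 2 * n := by
  obtain ⟨N, hN⟩ := ker_eq P
  refine ⟨Ph φ N, ?_⟩
  rw [hN, Ph_add, Ph_add, Ph_C_mul, Ph_C_mul, Ph_C_mul, Ph_Db]

end biv

section order

theorem mul_deriv_pow (ξ : ℂ) (m : ℕ) : (X - C ξ) * derivative ((X - C ξ) ^ m) =
    (C (m : ℂ)) * (X - C ξ) ^ m := by
  rw [derivative_X_sub_C_pow]
  rcases m with _ | m
  · simp
  · rw [Nat.add_sub_cancel]
    ring

/-- the order of `G` at a critical point -/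
theorem crit_order {P h n G : ℂ[X]}
    (hG : G = A1 P * h + A2 P * derivative h + derivative P ^ 2 * n) {ξ : ℂ}
    (h4 : P.eval ξ ^ 2 ≠ 4) (hP' : derivative P ≠ 0) (h0 : h ≠ 0)
    (hj : rootMultiplicity ξ h < rootMultiplicity ξ (derivative P)) :
    G ≠ 0 ∧ rootMultiplicity ξ G + 1 =
      rootMultiplicity ξ (derivative P) + rootMultiplicity ξ h := by
  obtain ⟨a, ha, ha'⟩ := exists_eq_pow_rootMultiplicity_mul_and_not_dvd _ hP' ξ
  obtain ⟨b, hb, hb'⟩ := exists_eq_pow_rootMultiplicity_mul_and_not_dvd _ h0 ξ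
  set m := rootMultiplicity ξ (derivative P) with hm
  set j := rootMultiplicity ξ h with hjd
  obtain ⟨k, hk⟩ := Nat.exists_eq_add_of_lt hj
  rw [dvd_iff_isRoot, IsRoot.def] at ha' hb'
  set s : ℂ[X] := X - C ξ with hs
  set Q : ℂ[X] := s ^ (k + 2) * a ^ 2 * (P * h + n) + (P ^ 2 - C 4) *
    (C ((j : ℂ) - m) * a * b + s * (a * derivative b - derivative a * b)) with hQ
  have hd1 : s * derivative (derivative P) = s ^ m * (C (m : ℂ) * a + s * derivative a) := by
    conv_lhs => rw [ha, derivative_mul, mul_add, ← mul_assoc, mul_deriv_pow]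
    ring
  have hd2 : s * derivative h = s ^ j * (C (j : ℂ) * b + s * derivative b) := by
    conv_lhs => rw [hb, derivative_mul, mul_add, ← mul_assoc, mul_deriv_pow]
    ring
  have key : s * G = s ^ (m + j) * Q := by
    have e1 : s * G = s * (derivative P) ^ 2 * (P * h + n) + (P ^ 2 - C 4) *
        (derivative P * (s * derivative h) - (s * derivative (derivative P)) * h) := by
      rw [hG]
      unfold A1 A2
      ring
    rw [e1, hd1, hd2, hQ, C_sub]
    have e2 : s * (derivative P) ^ 2 = s ^ (m + j) * (s ^ (k + 2) * a ^ 2) := by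
      conv_lhs => rw [ha]
      rw [hk]
      ring
    rw [e2]
    have e3 : derivative P * (s ^ j * (C (j : ℂ) * b + s * derivative b)) =
        s ^ (m + j) * (a * (C (j : ℂ) * b + s * derivative b)) := by
      conv_lhs => rw [ha]
      ring
    have e4 : s ^ m * (C (m : ℂ) * a + s * derivative a) * h =
        s ^ (m + j) * ((C (m : ℂ) * a + s * derivative a) * b) := by
      conv_lhs => rw [hb]
      ring
    rw [e3, e4]
    ring
  have hQξ : Q.eval ξ ≠ 0 := by
    have hsξ : s.eval ξ = 0 := by rw [hs, eval_sub, eval_X, eval_C, sub_self]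
    rw [hQ]
    simp only [eval_add, eval_mul, eval_pow, eval_sub, eval_C, hsξ, zero_mul, add_zero]
    rw [zero_pow (by omega), zero_mul, zero_mul, zero_add]
    refine mul_ne_zero (sub_ne_zero.2 h4) (mul_ne_zero (mul_ne_zero ?_ ha') hb')
    rw [sub_ne_zero]
    exact_mod_cast hj.ne
  have hQ0 : Q ≠ 0 := by
    intro h
    rw [h, eval_zero] at hQξ
    exact hQξ rfl
  have hs0 : s ≠ 0 := X_sub_C_ne_zero ξ
  have hne : s ^ (m + j) * Q ≠ 0 := mul_ne_zero (pow_ne_zero _ hs0) hQ0
  have hG0 : G ≠ 0 := by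
    rintro rfl
    rw [mul_zero] at key
    exact hne key.symm
  refine ⟨hG0, ?_⟩
  have h1 := congrArg (rootMultiplicity ξ) key
  rw [rootMultiplicity_mul (mul_ne_zero hs0 hG0), rootMultiplicity_mul hne, hs,
    rootMultiplicity_X_sub_C_pow, rootMultiplicity_X_sub_C_self,
    rootMultiplicity_eq_zero (p := Q) (x := ξ) hQξ] at h1
  omega

theorem rootMultiplicity_pow' {p : ℂ[X]} (hp : p ≠ 0) (ξ : ℂ) (n : ℕ) :
    rootMultiplicity ξ (p ^ n) = n * rootMultiplicity ξ p := by
  induction n with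
  | zero =>
    rw [pow_zero, zero_mul]
    exact rootMultiplicity_eq_zero (by simp [IsRoot.def])
  | succ n ih =>
    rw [pow_succ, rootMultiplicity_mul (mul_ne_zero (pow_ne_zero _ hp) hp), ih]
    ring

theorem comp_mult {P B : ℂ[X]} (hP : 0 < P.natDegree) (hB : B ≠ 0) (ξ : ℂ) :
    rootMultiplicity ξ (B.comp P) =
      rootMultiplicity (P.eval ξ) B * (rootMultiplicity ξ (derivative P) + 1) := by
  obtain ⟨b, hb, hb'⟩ := exists_eq_pow_rootMultiplicity_mul_and_not_dvd _ hB (P.eval ξ)
  rw [dvd_iff_isRoot, IsRoot.def] at hb'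
  set v := P.eval ξ with hv
  have hne : P - C v ≠ 0 := by
    intro h
    rw [sub_eq_zero.1 h, natDegree_C] at hP
    exact lt_irrefl _ hP
  have hroot : (P - C v).IsRoot ξ := by
    rw [IsRoot.def, eval_sub, eval_C, sub_self]
  have h1 : rootMultiplicity ξ (P - C v) = rootMultiplicity ξ (derivative P) + 1 := by
    have h2 := derivative_rootMultiplicity_of_root hroot
    rw [derivative_sub, derivative_C, sub_zero] at h2
    have h3 : 0 < rootMultiplicity ξ (P - C v) := (rootMultiplicity_pos hne).2 hroot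
    omega
  have h2 : B.comp P = (P - C v) ^ (rootMultiplicity v B) * b.comp P := by
    conv_lhs => rw [hb]
    rw [mul_comp, pow_comp, sub_comp, X_comp, C_comp]
  have h3 : (b.comp P).eval ξ ≠ 0 := by rwa [eval_comp]
  have h4 : b.comp P ≠ 0 := by
    intro h
    rw [h, eval_zero] at h3
    exact h3 rfl
  rw [h2, rootMultiplicity_mul (mul_ne_zero (pow_ne_zero _ hne) h4), rootMultiplicity_pow' hne, h1,
    rootMultiplicity_eq_zero (p := b.comp P) (x := ξ) h3, add_zero]

/-- **If `G / P'³` is a rational function of `P`, the polynomial `h` vanishes.** -/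
theorem h_eq_zero {P h n G B D : ℂ[X]} (hP : 0 < P.natDegree)
    (h4 : ∀ ξ : ℂ, (derivative P).eval ξ = 0 → P.eval ξ ^ 2 ≠ 4)
    (hG : G = A1 P * h + A2 P * derivative h + derivative P ^ 2 * n)
    (hdeg : h.degree < (derivative P).degree) (hD : D ≠ 0)
    (hBD : G * D.comp P = B.comp P * derivative P ^ 3) : h = 0 := by
  classical
  by_contra h0
  have hP' : derivative P ≠ 0 := by
    intro h1
    have := derivative_eq_zero.1 h1
    omega
  obtain ⟨ξ, hξ⟩ : ∃ ξ, rootMultiplicity ξ h < rootMultiplicity ξ (derivative P) := by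
    by_contra hcon
    push Not at hcon
    have h1 : derivative P ∣ h := by
      rw [IsAlgClosed.dvd_iff_roots_le_roots hP' h0, Multiset.le_iff_count]
      intro a
      rw [count_roots, count_roots]
      exact hcon a
    exact absurd (degree_le_of_dvd h1 h0) (not_le.2 hdeg)
  have hroot : (derivative P).eval ξ = 0 := (rootMultiplicity_pos hP').1 (by omega)
  obtain ⟨hG0, hord⟩ := crit_order hG (h4 ξ hroot) hP' h0 hξ
  have hDP : D.comp P ≠ 0 := by
    intro h1
    rcases comp_eq_zero_iff.1 h1 with h2 | h2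
    · exact hD h2
    · rw [h2.2, natDegree_C] at hP
      exact lt_irrefl _ hP
  have hB : B ≠ 0 := by
    rintro rfl
    rw [zero_comp, zero_mul] at hBD
    exact mul_ne_zero hG0 hDP hBD
  have hR : B.comp P * derivative P ^ 3 ≠ 0 := by
    rw [← hBD]
    exact mul_ne_zero hG0 hDP
  have h1 := congrArg (rootMultiplicity ξ) hBD
  rw [rootMultiplicity_mul (mul_ne_zero hG0 hDP), rootMultiplicity_mul hR, comp_mult hP hD,
    comp_mult hP hB, rootMultiplicity_pow' hP'] at h1
  set m := rootMultiplicity ξ (derivative P) with hm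
  set j := rootMultiplicity ξ h with hjd
  have h2 : (m + 1) * (rootMultiplicity (P.eval ξ) D + 1) + (j + 1) =
      (m + 1) * (rootMultiplicity (P.eval ξ) B + 3) := by
    have h3 : rootMultiplicity ξ G = m + j - 1 := by omega
    have h5 : 1 ≤ m := by omega
    rw [h3] at h1
    zify [show 1 ≤ m + j by omega] at h1 ⊢
    linear_combination h1
  have h3 : m + 1 ∣ j + 1 := (Nat.dvd_add_right (dvd_mul_right _ _)).1 (h2 ▸ dvd_mul_right _ _)
  have h5 := Nat.le_of_dvd (Nat.succ_pos j) h3
  omega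

end order

end Pool.Agent.Run7.h153.DG
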