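import Pool.Agent.Run7.h153.DG.Lur
import Pool.Agent.Run7.h153.DG.Alg
set_option autoImplicit false

/-!
Polynomials which are real on an infinite set on which `F` is real.
-/

namespace Pool.Agent.Run7.h153.DG

open Polynomial IntermediateField Filter

open scoped ComplexConjugate

variable {l : Filter ℂ}

theorem infinite_of_mem (hl : l ≤ cofinite) [l.NeBot] {S : Set ℂ} (hS : S ∈ l) : S.Infinite := by
  intro hfin
  have h1 : Sᶜ ∈ l := hl (by rw [mem_cofinite, compl_compl]; exact hfin)
  have h2 := inter_mem hS h1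
  rw [Set.inter_compl_self] at h2
  exact empty_notMem l h2

theorem ev_ne (hl : l ≤ cofinite) {a : ℂ[X]} (ha : a ≠ 0) : ∀ᶠ β in l, a.eval β ≠ 0 := by
  refine hl ?_
  rw [mem_cofinite]
  have h1 : {β | a.eval β ≠ 0}ᶜ = {β | a.eval β = 0} := by
    ext β
    simp
  rw [h1]
  by_contra hcon
  exact ha (eq_zero_of_infinite_isRoot a hcon)

theorem eq_of_ev (hl : l ≤ cofinite) [l.NeBot] {a b : ℂ[X]}
    (h : ∀ᶠ β in l, a.eval β = b.eval β) : a = b := by
  by_contra hne
  obtain ⟨β, h1, h2⟩ := (h.and (ev_ne hl (sub_ne_zero.2 hne))).exists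
  exact h2 (by rw [eval_sub, h1, sub_self])

/-- `b` is the complex conjugate of `a` along `l` -/
def Cj (l : Filter ℂ) (a b : ℂ[X]) : Prop := ∀ᶠ β in l, b.eval β = conj (a.eval β)

theorem cj_adjoin {F U : ℂ[X]} (hF : Cj l F F) (hU : Cj l U U) {r : RatFunc ℂ}
    (hr : r ∈ Algebra.adjoin ℂ {al F, al U}) : ∃ a a' : ℂ[X], r = al a ∧
      al a' ∈ Algebra.adjoin ℂ {al F, al U} ∧ Cj l a a' := by
  induction hr using Algebra.adjoin_induction with
  | mem x hx =>
    rcases hx with hx | hx
    · exact ⟨F, F, hx, Algebra.subset_adjoin (by left; rfl), hF⟩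
    · exact ⟨U, U, hx, Algebra.subset_adjoin (by right; rfl), hU⟩
  | algebraMap c =>
    refine ⟨C c, C (conj c), rfl, Subalgebra.algebraMap_mem _ (conj c), ?_⟩
    exact Eventually.of_forall fun β => by rw [eval_C, eval_C]
  | add x y _ _ hx hy =>
    obtain ⟨a, a', h1, h2, h3⟩ := hx
    obtain ⟨b, b', k1, k2, k3⟩ := hy
    refine ⟨a + b, a' + b', by rw [h1, k1, map_add], by rw [map_add]; exact add_mem h2 k2, ?_⟩
    filter_upwards [h3, k3] with β m1 m2
    rw [eval_add, eval_add, m1, m2, map_add]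
  | mul x y _ _ hx hy =>
    obtain ⟨a, a', h1, h2, h3⟩ := hx
    obtain ⟨b, b', k1, k2, k3⟩ := hy
    refine ⟨a * b, a' * b', by rw [h1, k1, map_mul], by rw [map_mul]; exact mul_mem h2 k2, ?_⟩
    filter_upwards [h3, k3] with β m1 m2
    rw [eval_mul, eval_mul, m1, m2, map_mul]

theorem cj_self {a : ℂ[X]} : Cj l a a ↔ ∀ᶠ β in l, (a.eval β).im = 0 := by
  refine eventually_congr (Eventually.of_forall fun β => ?_)
  rw [eq_comm, Complex.conj_eq_iff_im]

/-- **Real polynomials along a filter.** -/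
theorem real_comp (hl : l ≤ cofinite) [l.NeBot] {F U : ℂ[X]} (hF : 0 < F.natDegree)
    (hFr : ∀ᶠ β in l, (F.eval β).im = 0) (hUr : ∀ᶠ β in l, (U.eval β).im = 0) :
    (∃ B : ℂ[X], U = B.comp F) ∨ ∃ (A : ℝ[X]) (u : ℂ[X]), 2 ≤ A.natDegree ∧
      F = (A.map (algebraMap ℝ ℂ)).comp u ∧ ∀ᶠ β in l, (u.eval β).im = 0 := by
  have cF : Cj l F F := cj_self.2 hFr
  have cU : Cj l U U := cj_self.2 hUr
  set E : IntermediateField ℂ (RatFunc ℂ) := adjoin ℂ {al F, al U} with hE
  have mF : al F ∈ E := subset_adjoin ℂ _ (by left; rfl)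
  have mU : al U ∈ E := subset_adjoin ℂ _ (by right; rfl)
  obtain ⟨u₀, hu₀, hEu⟩ := exists_gen hF mF
  obtain ⟨A₀, hA₀⟩ := exists_comp (W := F) hu₀ (hEu ▸ mF)
  obtain ⟨B₀, hB₀⟩ := exists_comp (W := U) hu₀ (hEu ▸ mU)
  have hdF : F.natDegree = A₀.natDegree * u₀.natDegree := by
    conv_lhs => rw [hA₀]
    exact natDegree_comp
  have hA₀pos : 0 < A₀.natDegree := Nat.pos_of_ne_zero fun h0 => by
    rw [h0, zero_mul] at hdF
    omega
  -- inverting a polynomial of degree one
  have inv1 : ∀ p : ℂ[X], p.natDegree = 1 → ∃ q : ℂ[X], q.natDegree = 1 ∧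
      ∀ w : ℂ[X], q.comp (p.comp w) = w := by
    intro p hp
    obtain ⟨a, b, hab⟩ := exists_eq_X_add_C_of_natDegree_le_one hp.le
    have ha : a ≠ 0 := by
      rintro rfl
      rw [hab, C_0, zero_mul, zero_add, natDegree_C] at hp
      exact zero_ne_one hp
    refine ⟨C a⁻¹ * (X - C b), ?_, fun w => ?_⟩
    · rw [natDegree_C_mul (inv_ne_zero ha), natDegree_X_sub_C]
    · rw [hab, mul_comp, sub_comp, C_comp, X_comp, C_comp, add_comp, mul_comp, C_comp, X_comp,
        C_comp, add_sub_cancel_right, ← mul_assoc, ← C_mul, inv_mul_cancel₀ ha, C_1, one_mul]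
  rcases Nat.lt_or_ge A₀.natDegree 2 with h2 | h2
  · left
    obtain ⟨q, -, hq⟩ := inv1 A₀ (by omega)
    refine ⟨B₀.comp q, ?_⟩
    have h3 := hq u₀
    rw [← hA₀] at h3
    rw [comp_assoc, h3]
    exact hB₀
  · right
    have mu : al u₀ ∈ E := by
      rw [hEu]
      exact mem_adjoin_simple_self ℂ _
    obtain ⟨r, hr, s, hs, hrs⟩ := mem_adjoin_iff_div.1 mu
    obtain ⟨a, a', ha, ha', hca⟩ := cj_adjoin cF cU hr
    obtain ⟨b, b', hb, hb', hcb⟩ := cj_adjoin cF cU hs
    have hu0 : u₀ ≠ 0 := ne_zero_of_natDegree_gt hu₀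
    have hb0 : b ≠ 0 := by
      rintro rfl
      rw [hb, map_zero, div_zero] at hrs
      exact al_ne hu0 hrs
    have hb'0 : b' ≠ 0 := by
      rintro rfl
      obtain ⟨β, h3, h4⟩ := (hcb.and (ev_ne hl hb0)).exists
      rw [eval_zero] at h3
      exact h4 ((_root_.map_eq_zero _).1 h3.symm)
    have hab : u₀ * b = a := by
      apply al_inj
      rw [map_mul, ← hb, ← ha, hrs, div_mul_cancel₀]
      rw [hb]
      exact al_ne hb0
    set Ab : ℂ[X] := A₀.map (starRingEnd ℂ) with hAb
    have hAbd : Ab.natDegree = A₀.natDegree := natDegree_map _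
    have hconj : ∀ᶠ β in l, Ab.eval (conj (u₀.eval β)) = F.eval β := by
      filter_upwards [cF] with β hβ
      rw [hAb, eval_conj, ← eval_comp, ← hA₀, ← hβ]
    have hdvd : b' ∣ a' := by
      have hlc : Ab.leadingCoeff ≠ 0 := leadingCoeff_ne_zero.2
        (ne_zero_of_natDegree_gt (hAbd ▸ hA₀pos))
      have hpm : (C (C Ab.leadingCoeff⁻¹) * (Ab.map C - C F) : ℂ[X][X]).Monic := by
        have h3 : (Ab.map (C : ℂ →+* ℂ[X]) - C F).natDegree = Ab.natDegree := by
          rw [natDegree_sub_C, natDegree_map_eq_of_injective C_injective]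
        have h4 : (Ab.map (C : ℂ →+* ℂ[X]) - C F).leadingCoeff = C Ab.leadingCoeff := by
          rw [leadingCoeff, h3, coeff_sub, coeff_map, coeff_C_of_ne_zero (by omega), sub_zero]
          rfl
        rw [Monic, leadingCoeff_mul, leadingCoeff_C, h4, ← C_mul, inv_mul_cancel₀ hlc, C_1]
      have hmem : {β | b'.eval β = conj (b.eval β) ∧ a'.eval β = conj (a.eval β) ∧
          Ab.eval (conj (u₀.eval β)) = F.eval β} ∈ l := by
        filter_upwards [hcb, hca, hconj] with β h3 h4 h5
        exact ⟨h3, h4, h5⟩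
      refine dvd_of_monic hb'0 _ hpm (infinite_of_mem hl hmem) ?_
      rintro β ⟨h3, h4, h5⟩
      refine ⟨conj (u₀.eval β), ?_, ?_⟩
      · rw [h3, h4, ← hab, eval_mul, map_mul, mul_comm]
      · rw [Polynomial.map_mul, Polynomial.map_sub, map_C, map_C, Polynomial.map_map]
        have h6 : (evalRingHom β).comp C = RingHom.id ℂ := by
          ext z
          simp
        rw [h6, Polynomial.map_id, eval_mul, eval_sub, h5, eval_C, eval_C]
        simp
    obtain ⟨v, hv⟩ := hdvd
    have cuv : Cj l u₀ v := by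
      filter_upwards [hcb, hca, ev_ne hl hb'0] with β h3 h4 h5
      rw [hv, ← hab, eval_mul, eval_mul, map_mul, ← h3, mul_comm] at h4
      exact mul_right_cancel₀ h5 h4
    have mv : al v ∈ E := by
      have h3 : al v = al a' / al b' := by
        rw [hv, map_mul, mul_comm, mul_div_cancel_right₀ _ (al_ne hb'0)]
      rw [h3]
      exact div_mem (algebra_adjoin_le_adjoin ℂ _ ha') (algebra_adjoin_le_adjoin ℂ _ hb')
    have hFv : F = Ab.comp v := by
      refine eq_of_ev hl ?_
      filter_upwards [cuv, hconj] with β h3 h4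
      rw [eval_comp, h3, h4]
    have hdv : v.natDegree = u₀.natDegree := by
      have h3 : F.natDegree = A₀.natDegree * v.natDegree := by
        conv_lhs => rw [hFv]
        rw [natDegree_comp, hAbd]
      rw [hdF] at h3
      exact (Nat.eq_of_mul_eq_mul_left hA₀pos h3).symm
    have mI : algebraMap ℂ (RatFunc ℂ) Complex.I ∈ E := IntermediateField.algebraMap_mem E _
    -- a real generator
    obtain ⟨u, hur, hud, muE⟩ : ∃ u : ℂ[X], (∀ᶠ β in l, (u.eval β).im = 0) ∧
        u.natDegree = u₀.natDegree ∧ al u ∈ E := by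
      have r1 : ∀ᶠ β in l, ((u₀ + v).eval β).im = 0 := by
        filter_upwards [cuv] with β h3
        rw [eval_add, h3, Complex.add_im, Complex.conj_im, add_neg_cancel]
      have r2 : ∀ᶠ β in l, ((C Complex.I * (u₀ - v)).eval β).im = 0 := by
        filter_upwards [cuv] with β h3
        rw [eval_mul, eval_C, eval_sub, h3, Complex.mul_im, Complex.sub_re, Complex.conj_re,
          sub_self, Complex.I_re]
        ring
      have d1 : (u₀ + v).natDegree ≤ u₀.natDegree :=
        (natDegree_add_le _ _).trans (by rw [hdv, max_self])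
      have d2 : (C Complex.I * (u₀ - v)).natDegree ≤ u₀.natDegree :=
        (natDegree_C_mul_le _ _).trans ((natDegree_sub_le _ _).trans (by rw [hdv, max_self]))
      by_cases k1 : (u₀ + v).natDegree = u₀.natDegree
      · exact ⟨u₀ + v, r1, k1, by rw [map_add]; exact add_mem mu mv⟩
      by_cases k2 : (C Complex.I * (u₀ - v)).natDegree = u₀.natDegree
      · refine ⟨_, r2, k2, ?_⟩
        rw [map_mul, map_sub]
        exact mul_mem mI (sub_mem mu mv)
      exfalso
      have e : C (2 : ℂ) * u₀ = (u₀ + v) + C (-Complex.I) * (C Complex.I * (u₀ - v)) := by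
        have h3 : C (-Complex.I) * C Complex.I = (1 : ℂ[X]) := by
          rw [← C_mul, neg_mul, Complex.I_mul_I, neg_neg, C_1]
        rw [← mul_assoc, h3, one_mul]
        have h4 : (C (2 : ℂ) : ℂ[X]) = 2 := rfl
        rw [h4]
        ring
      have h3 := congrArg natDegree e
      rw [natDegree_C_mul two_ne_zero] at h3
      have h4 := (natDegree_add_le (u₀ + v) (C (-Complex.I) * (C Complex.I * (u₀ - v))))
      have h5 := natDegree_C_mul_le (-Complex.I) (C Complex.I * (u₀ - v))
      rw [← h3] at h4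
      rcases le_max_iff.1 h4 with h6 | h6
      · exact k1 (le_antisymm d1 h6)
      · exact k2 (le_antisymm d2 (h6.trans h5))
    obtain ⟨C₀, hC₀⟩ := exists_comp (W := u) hu₀ (hEu ▸ muE)
    have hC1 : C₀.natDegree = 1 := by
      have h3 : u.natDegree = C₀.natDegree * u₀.natDegree := by
        conv_lhs => rw [hC₀]
        exact natDegree_comp
      rw [hud] at h3
      have h4 : 1 * u₀.natDegree = C₀.natDegree * u₀.natDegree := by rw [one_mul]; exact h3
      exact (Nat.eq_of_mul_eq_mul_right hu₀ h4).symm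
    obtain ⟨q, hqd, hq⟩ := inv1 C₀ hC1
    have hqu : q.comp u = u₀ := by
      conv_lhs => rw [hC₀]
      exact hq u₀
    set A₁ := A₀.comp q with hA₁
    have hFA : F = A₁.comp u := by
      rw [hA₁, comp_assoc, hqu]
      exact hA₀
    have hA₁d : A₁.natDegree = A₀.natDegree := by
      rw [hA₁, natDegree_comp, hqd, mul_one]
    have hupos : 0 < u.natDegree := hud ▸ hu₀
    have hreal : A₁.map (starRingEnd ℂ) = A₁ := by
      have h3 : (A₁.map (starRingEnd ℂ)).comp u = A₁.comp u := by
        refine eq_of_ev hl ?_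
        filter_upwards [cj_self.2 hur, cF] with β k1 k2
        rw [eval_comp, k1, eval_conj, ← eval_comp, ← hFA, ← k2]
      have h4 : (A₁.map (starRingEnd ℂ) - A₁).comp u = 0 := by
        rw [sub_comp, h3, sub_self]
      rcases comp_eq_zero_iff.1 h4 with h5 | h5
      · exact sub_eq_zero.1 h5
      · rw [h5.2, natDegree_C] at hupos
        exact absurd hupos (lt_irrefl _)
    have hlift : A₁ ∈ lifts (algebraMap ℝ ℂ) := by
      rw [lifts_iff_coeff_lifts]
      intro n
      have h3 := congrArg (fun p => p.coeff n) hreal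
      simp only [coeff_map] at h3
      exact ⟨(A₁.coeff n).re, (Complex.conj_eq_iff_re.1 h3)⟩
    obtain ⟨A, hA⟩ := (mem_lifts _).1 hlift
    refine ⟨A, u, ?_, by rw [hA]; exact hFA, hur⟩
    have h3 := natDegree_map_eq_of_injective (algebraMap ℝ ℂ).injective A
    rw [hA, hA₁d] at h3
    omega

end Pool.Agent.Run7.h153.DG
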