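import Pool.Agent.Run7.h153.DG.Arc
import Pool.Agent.Run7.h153.DG.RC
import Pool.Agent.Run7.h153.DG.Ord
set_option autoImplicit false

/-!
If the regulators of a real combination of loops vanish, its periods vanish.
-/

namespace Pool.Agent.Run7.h153.DG

open MeasureTheory Set Metric Polynomial

variable {P : ℂ[X]} {d : ℕ}

open Filter

open scoped ComplexConjugate

/-- the alternative for a rational function with the denominator `P'³` which is real along `l` -/
theorem real_quot {l : Filter ℂ} (hl : l ≤ cofinite) [l.NeBot] {G : ℂ[X]} (hP : 0 < P.natDegree)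
    (h1 : ∀ᶠ β in l, (P.eval β).im = 0)
    (h2 : ∀ᶠ β in l, (G.eval β / (derivative P).eval β ^ 3).im = 0) :
    (∃ B D : ℂ[X], D ≠ 0 ∧ G * D.comp P = B.comp P * derivative P ^ 3) ∨
      ∃ (A : ℝ[X]) (u : ℂ[X]), 2 ≤ A.natDegree ∧ P = (A.map (algebraMap ℝ ℂ)).comp u ∧
        ∀ᶠ β in l, (u.eval β).im = 0 := by
  have hP' : derivative P ≠ 0 := fun h => by
    have := derivative_eq_zero.1 h
    omega
  set V : ℂ[X] := ((derivative P).roots.map fun ξ => X - C (P.eval ξ)).prod with hV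
  have hV0 : V ≠ 0 := by
    rw [hV]
    refine Multiset.prod_ne_zero fun h => ?_
    obtain ⟨ξ, -, hξ⟩ := Multiset.mem_map.1 h
    exact X_sub_C_ne_zero _ hξ
  have hdiv : derivative P ∣ V.comp P := by
    have e1 := (IsAlgClosed.splits (derivative P)).eq_prod_roots
    have e2 : ((derivative P).roots.map fun a => X - C a).prod ∣ V.comp P := by
      rw [hV, multiset_prod_comp, Multiset.map_map]
      refine Multiset.prod_dvd_prod_of_dvd _ _ fun ξ _ => ?_
      rw [Function.comp_apply, sub_comp, X_comp, C_comp]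
      exact X_sub_C_dvd_sub_C_eval
    rw [e1]
    exact (IsUnit.mul_left_dvd (isUnit_C.2 (isUnit_iff_ne_zero.2
      (leadingCoeff_ne_zero.2 hP')))).2 e2
  obtain ⟨w, hw⟩ := hdiv
  set Vb : ℂ[X] := V.map (starRingEnd ℂ) with hVb
  have hVb0 : Vb ≠ 0 := (Polynomial.map_ne_zero_iff (starRingEnd ℂ).injective).2 hV0
  set D : ℂ[X] := (V * Vb) ^ 3 with hD
  set W : ℂ[X] := w ^ 3 * (Vb.comp P) ^ 3 with hW
  have hDW : D.comp P = derivative P ^ 3 * W := by
    rw [hD, pow_comp, mul_comp, mul_pow, hw, hW]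
    ring
  have hreal : ∀ᶠ β in l, ((G * W).eval β).im = 0 := by
    filter_upwards [h1, h2, ev_ne hl hP'] with β k1 k2 k3
    have e1 : conj (P.eval β) = P.eval β := Complex.conj_eq_iff_im.2 k1
    have e2 : (D.comp P).eval β = conj ((D.comp P).eval β) := by
      have e3 : Vb.eval (P.eval β) = conj (V.eval (P.eval β)) := by
        conv_lhs => rw [← e1]
        rw [hVb, eval_conj]
      rw [eval_comp, hD, eval_pow, eval_mul, e3, map_pow, map_mul, Complex.conj_conj]
      ring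
    have e4 : (G * W).eval β = (G.eval β / (derivative P).eval β ^ 3) * (D.comp P).eval β := by
      have e5 : (D.comp P).eval β = (derivative P).eval β ^ 3 * W.eval β := by
        rw [hDW, eval_mul, eval_pow]
      rw [e5, eval_mul, ← mul_assoc, div_mul_cancel₀ _ (pow_ne_zero 3 k3)]
    rw [e4, ← Complex.conj_eq_iff_im, map_mul, ← e2, Complex.conj_eq_iff_im.2 k2]
  rcases real_comp hl hP h1 hreal with ⟨B, hB⟩ | h
  · refine Or.inl ⟨B, D, pow_ne_zero _ (mul_ne_zero hV0 hVb0), ?_⟩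
    rw [hDW, ← hB]
    ring
  · exact Or.inr h

/-- **If the regulators of all classes near the points of `T` on a real combination of loops vanish,
the periods of the holomorphic differentials vanish.** -/
theorem periods_zero (hP : 0 < P.natDegree)
    (h4 : ∀ ξ : ℂ, (derivative P).eval ξ = 0 → P.eval ξ ^ 2 ≠ 4)
    (L : Fin d → Lp P) (s : Fin d → ℝ) {T : Set ℂ} (hT : T.Nonempty) {r κ : ℝ} (hr : 0 < r)
    (hTP : ∀ p ∈ T, (∃ t : ℝ, |t| < 2 ∧ P.eval p = t) ∧ (derivative P).eval p ≠ 0)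
    (hfar : ∀ p ∈ T, ∀ l t, r ≤ ‖(L l).X t - p‖)
    (hdec : ∀ (A : ℝ[X]) (u : ℂ[X]), 2 ≤ A.natDegree → P = (A.map (algebraMap ℝ ℂ)).comp u →
      ∃ p ∈ T, (u.eval p).im ≠ 0)
    (hκ : ∀ p ∈ T, ∀ β ∈ ball p r, Tors P β → ∑ l, s l * (L l).rho β = κ) {j : ℕ}
    (hj : j < (derivative P).natDegree) : ∑ l, (s l : ℂ) * (L l).per (Polynomial.X ^ j) = 0 := by
  classical
  have hP' : derivative P ≠ 0 := fun h => by
    have := derivative_eq_zero.1 h
    omega
  have harc : ∀ p : T, ∃ (t₀ δ : ℝ) (c : ℝ → ℂ), 0 < δ ∧ c t₀ = p ∧ ContinuousAt c t₀ ∧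
      ∀ t, |t - t₀| < δ → P.eval (c t) = t ∧
      c t ∈ ball (p : ℂ) r ∧ (derivative P).eval (c t) ≠ 0 ∧
        ((∑ l, C (s l : ℂ) * (L l).GP).eval (c t) / (derivative P).eval (c t) ^ 3).im = 0 := by
    rintro ⟨p, hp⟩
    obtain ⟨⟨t₀, ht₀, h0⟩, h1⟩ := hTP p hp
    exact ⟨t₀, real_points L s hr (hfar p hp) h0 (abs_lt.1 ht₀) h1 (hκ p hp)⟩
  choose t₀ δ c hδ hc₀ hcc hc using harc
  set l₁ : T → Filter ℂ := fun p => map (c p) (nhdsWithin (t₀ p) {t₀ p}ᶜ) with hl₁
  set l : Filter ℂ := ⨆ p, l₁ p with hl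
  have hnear : ∀ p, ∀ᶠ t in nhdsWithin (t₀ p) {t₀ p}ᶜ, |t - t₀ p| < δ p := by
    intro p
    refine nhdsWithin_le_nhds ?_
    filter_upwards [ball_mem_nhds (t₀ p) (hδ p)] with t ht
    rwa [mem_ball, Real.dist_eq] at ht
  have hcof : l ≤ cofinite := by
    refine iSup_le fun p => ?_
    intro S hS
    rw [mem_cofinite] at hS
    rw [hl₁]
    simp only
    rw [mem_map]
    have h1 : ((fun β : ℂ => (P.eval β).re) '' Sᶜ)ᶜ ∈ nhdsWithin (t₀ p) {t₀ p}ᶜ := by
      refine nhdsNE_le_cofinite (t₀ p) ?_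
      rw [mem_cofinite, compl_compl]
      exact hS.image _
    filter_upwards [hnear p, h1] with t ht h2
    by_contra hcon
    refine h2 ⟨c p t, hcon, ?_⟩
    simp only
    rw [(hc p t ht).1, Complex.ofReal_re]
  have hnb : l.NeBot := by
    obtain ⟨p, hp⟩ := hT
    have : (l₁ ⟨p, hp⟩).NeBot := map_neBot
    exact this.mono (le_iSup l₁ ⟨p, hp⟩)
  set G : ℂ[X] := ∑ l, C (s l : ℂ) * (L l).GP with hG
  have e1 : ∀ᶠ β in l, (P.eval β).im = 0 := by
    rw [hl, eventually_iSup]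
    intro p
    rw [hl₁]
    simp only
    rw [eventually_map]
    filter_upwards [hnear p] with t ht
    rw [(hc p t ht).1, Complex.ofReal_im]
  have e2 : ∀ᶠ β in l, (G.eval β / (derivative P).eval β ^ 3).im = 0 := by
    rw [hl, eventually_iSup]
    intro p
    rw [hl₁]
    simp only
    rw [eventually_map]
    filter_upwards [hnear p] with t ht
    exact (hc p t ht).2.2.2
  set φ : ℂ[X] →ₗ[ℂ] ℂ := ∑ l, (s l : ℂ) • (L l).perL with hφ
  have hφa : ∀ q, φ q = ∑ l, (s l : ℂ) * (L l).per q := by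
    intro q
    rw [hφ, LinearMap.sum_apply]
    rfl
  have hGφ : G = Ph φ (ker P) := by
    rw [hG, Ph_eq φ (ker P) (n := (ker P).natDegree + 1) (Nat.lt_succ_self _)]
    simp only [Lp.GP, hφa, map_sum, Finset.mul_sum]
    rw [Finset.sum_comm]
    refine Finset.sum_congr rfl fun i _ => Finset.sum_congr rfl fun l _ => ?_
    rw [C_mul]
    ring
  rw [← hφa]
  refine phi_zero φ hP' ?_ j hj
  obtain ⟨n, hn⟩ := Ph_ker φ P
  rw [← hGφ] at hn
  rcases real_quot hcof hP e1 e2 with ⟨B, D, hD, hBD⟩ | ⟨A, u, hA, hPA, hu⟩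
  · exact h_eq_zero hP h4 hn (degree_Ph_qq φ hP') hD hBD
  · exfalso
    obtain ⟨p, hp, hpu⟩ := hdec A u hA hPA
    rw [hl, eventually_iSup] at hu
    have h5 := hu ⟨p, hp⟩
    rw [hl₁] at h5
    simp only at h5
    rw [eventually_map] at h5
    have h6 : Tendsto (fun t => (u.eval (c ⟨p, hp⟩ t)).im) (nhdsWithin (t₀ ⟨p, hp⟩) {t₀ ⟨p, hp⟩}ᶜ)
        (nhds (u.eval p).im) := by
      have h7 : ContinuousAt (fun t => (u.eval (c ⟨p, hp⟩ t)).im) (t₀ ⟨p, hp⟩) :=
        Complex.continuous_im.continuousAt.comp (u.continuous.continuousAt.comp (hcc ⟨p, hp⟩))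
      have h8 := h7.tendsto
      simp only [hc₀] at h8
      exact h8.mono_left nhdsWithin_le_nhds
    have h9 : Tendsto (fun t => (u.eval (c ⟨p, hp⟩ t)).im) (nhdsWithin (t₀ ⟨p, hp⟩) {t₀ ⟨p, hp⟩}ᶜ)
        (nhds 0) := tendsto_const_nhds.congr' (by
      filter_upwards [h5] with t ht
      exact ht.symm)
    exact hpu (tendsto_nhds_unique h6 h9)

section pts

/-- choice of points -/
theorem exists_pts {ι : Type*} {T : Set ι} {d : ℕ} (w : ι → Fin d → ℝ) (hne : T.Nonempty)
    (h : ∀ (s : Fin d → ℝ) (κ : ℝ), (∀ β ∈ T, ∑ l, s l * w β l = κ) → s = 0) :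
    ∃ b : Fin (d + 1) → ι, (∀ m, b m ∈ T) ∧
      (Matrix.of fun l k : Fin d => w (b k.succ) l - w (b 0) l).det ≠ 0 := by
  classical
  obtain ⟨β₀, hβ₀⟩ := hne
  set V : Set (Fin d → ℝ) := {v | ∃ β ∈ T, w β - w β₀ = v} with hV
  have hspan : Submodule.span ℝ V = ⊤ := by
    by_contra hcon
    obtain ⟨f, hf0, hf⟩ := Submodule.exists_le_ker_of_lt_top _ (lt_top_iff_ne_top.2 hcon)
    apply hf0
    have hfs : ∀ v, f v = ∑ l, f (Pi.single l 1) * v l := by
      intro v
      conv_lhs => rw [← Finset.univ_sum_single v]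
      rw [map_sum]
      refine Finset.sum_congr rfl fun l _ => ?_
      have : (Pi.single l (v l) : Fin d → ℝ) = v l • Pi.single l 1 := by
        rw [← Pi.single_smul, smul_eq_mul, mul_one]
      rw [this, map_smul, smul_eq_mul, mul_comm]
    have h1 := h (fun l => f (Pi.single l 1)) (f (w β₀)) (fun β hβ => by
      have h2 : w β - w β₀ ∈ LinearMap.ker f := hf (Submodule.subset_span ⟨β, hβ, rfl⟩)
      rw [LinearMap.mem_ker, map_sub, sub_eq_zero] at h2
      rw [← h2, ← hfs])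
    refine LinearMap.ext fun v => ?_
    rw [hfs, LinearMap.zero_apply]
    refine Finset.sum_eq_zero fun l _ => ?_
    rw [show f (Pi.single l 1) = 0 from congrFun h1 l, zero_mul]
  obtain ⟨B, hBV, hBs, hBi⟩ := exists_linearIndependent ℝ V
  rw [hspan] at hBs
  have hbasis : Module.Basis B ℝ (Fin d → ℝ) := Module.Basis.mk hBi (by
    rw [Subtype.range_coe]
    exact hBs.ge)
  have hfin : Finite B := Module.Finite.finite_basis hbasis
  letI : Fintype B := Fintype.ofFinite B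
  have hcard : Fintype.card B = d := by
    rw [← Module.finrank_eq_card_basis hbasis]
    simp
  set e : Fin d ≃ B := (Fintype.equivFinOfCardEq hcard).symm with he
  have hch : ∀ k : Fin d, ∃ β ∈ T, w β - w β₀ = (e k : Fin d → ℝ) := fun k => hBV (e k).2
  choose β hβT hβ using hch
  refine ⟨Fin.cons β₀ β, fun m => ?_, ?_⟩
  · refine Fin.cases ?_ (fun k => ?_) m
    · exact hβ₀
    · exact hβT k
  · have h1 : LinearIndependent ℝ (fun k : Fin d => (e k : Fin d → ℝ)) :=
      hBi.comp e e.injective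
    have h2 : (Matrix.of fun k l : Fin d => (e k : Fin d → ℝ) l).det ≠ 0 := by
      have h3 := (Matrix.linearIndependent_rows_iff_isUnit
        (A := Matrix.of fun k l : Fin d => (e k : Fin d → ℝ) l)).1 h1
      exact ((Matrix.isUnit_iff_isUnit_det _).1 h3).ne_zero
    rw [← Matrix.det_transpose] at h2
    convert h2 using 2
    ext l k
    rw [Matrix.of_apply, Matrix.transpose_apply, Matrix.of_apply, Fin.cons_succ, Fin.cons_zero,
      ← hβ k]
    rfl

end pts

end Pool.Agent.Run7.h153.DG
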