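import Pool.Agent.Run7.h153.DG.Ana
set_option autoImplicit false

/-!
The polynomial `P'(β)³ D Ψ(β)` and its values at the critical points.
-/

namespace Pool.Agent.Run7.h153.DG

open MeasureTheory Set Metric Polynomial

section poly

/-- a double root -/
theorem sq_dvd {R : Type*} [CommRing R] {p : R[X]} {a : R} (h0 : p.eval a = 0)
    (h1 : (derivative p).eval a = 0) : (X - C a) ^ 2 ∣ p := by
  obtain ⟨q, hq⟩ := dvd_iff_isRoot.2 h0
  have h2 : (derivative p).eval a = q.eval a := by
    rw [hq, derivative_mul, derivative_X_sub_C]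
    simp
  rw [h2] at h1
  obtain ⟨s, hs⟩ := dvd_iff_isRoot.2 h1
  exact ⟨s, by rw [hq, hs]; ring⟩

/-- `P P'² - (P² - 4) P''` -/
noncomputable def A1 (P : ℂ[X]) : ℂ[X] :=
  P * derivative P ^ 2 - (P ^ 2 - C 4) * derivative (derivative P)

/-- `(P² - 4) P'` -/
noncomputable def A2 (P : ℂ[X]) : ℂ[X] := (P ^ 2 - C 4) * derivative P

/-- The kernel, as a polynomial in `x` whose coefficients are polynomials in `β`. -/
theorem exists_kernel (P : ℂ[X]) : ∃ M : ℂ[X][X], ∀ β x : ℂ,
    (M.map (evalRingHom β)).eval x * (x - β) ^ 2 =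
      (A1 P).eval β * (derivative P).eval x * (x - β) + (A2 P).eval β * (derivative P).eval x +
      (derivative P).eval β ^ 2 * (P.eval x * (derivative P).eval x * (x - β) -
        (P.eval x ^ 2 - 4)) := by
  set c : ℂ →+* ℂ[X] := C with hc
  set N : ℂ[X][X] := C (A1 P) * (derivative P).map c * (X - C X) +
    C (A2 P) * (derivative P).map c + C (derivative P ^ 2) *
      (P.map c * (derivative P).map c * (X - C X) - ((P.map c) ^ 2 - C (C 4))) with hN
  have ev : ∀ p : ℂ[X], (p.map c).eval X = p := by
    intro p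
    rw [eval_map, hc, eval₂_C_X]
  have h0 : N.eval X = 0 := by
    rw [hN]
    simp only [eval_add, eval_mul, eval_sub, eval_C, eval_X, eval_pow, ev, sub_self, mul_zero,
      zero_sub, zero_add]
    unfold A2
    ring
  have h1 : (derivative N).eval X = 0 := by
    rw [hN]
    simp only [derivative_add, derivative_mul, derivative_sub, derivative_C, derivative_X,
      derivative_pow, derivative_map, eval_add, eval_mul, eval_sub, eval_C, eval_X, eval_pow, ev,
      sub_self, mul_zero, zero_sub, zero_add, zero_mul, add_zero, sub_zero, mul_one, eval_one,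
      eval_zero, Nat.cast_ofNat, eval_ofNat, map_ofNat, derivative_ofNat]
    unfold A1 A2
    ring_nf
  obtain ⟨M, hM⟩ := sq_dvd h0 h1
  refine ⟨M, fun β x => ?_⟩
  have h2 := congrArg (fun p => (p.map (evalRingHom β)).eval x) hM
  have ev2 : ∀ p : ℂ[X], ((p.map c).map (evalRingHom β)).eval x = p.eval x := by
    intro p
    rw [Polynomial.map_map]
    have : (evalRingHom β).comp c = RingHom.id ℂ := by
      ext z
      simp [hc]
    rw [this, Polynomial.map_id]
  rw [hN] at h2
  simp only [Polynomial.map_add, Polynomial.map_mul, Polynomial.map_sub, Polynomial.map_pow,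
    map_C, map_X, eval_add, eval_mul, eval_sub, eval_pow, eval_C, eval_X, ev2,
    coe_evalRingHom] at h2
  rw [mul_comm, ← h2]

/-- the kernel -/
noncomputable def ker (P : ℂ[X]) : ℂ[X][X] := (exists_kernel P).choose

theorem ker_spec (P : ℂ[X]) (β x : ℂ) :
    ((ker P).map (evalRingHom β)).eval x * (x - β) ^ 2 =
      (A1 P).eval β * (derivative P).eval x * (x - β) + (A2 P).eval β * (derivative P).eval x +
      (derivative P).eval β ^ 2 * (P.eval x * (derivative P).eval x * (x - β) -
        (P.eval x ^ 2 - 4)) := (exists_kernel P).choose_spec β x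

end poly

namespace Lp

variable {P : ℂ[X]} (L : Lp P)

/-- the polynomial `∑_i M_i(β) ∫ x ^ i dx / y` -/
noncomputable def GP : ℂ[X] :=
  ∑ i ∈ Finset.range ((ker P).natDegree + 1), (ker P).coeff i * C (L.per (Polynomial.X ^ i))

theorem GP_eval (β : ℂ) : L.GP.eval β = L.per ((ker P).map (evalRingHom β)) := by
  unfold GP
  rw [eval_finsetSum]
  have h1 : (ker P).map (evalRingHom β) = ∑ i ∈ Finset.range ((ker P).natDegree + 1),
      C (((ker P).coeff i).eval β) * Polynomial.X ^ i := by
    conv_lhs => rw [(ker P).as_sum_range_C_mul_X_pow]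
    rw [Polynomial.map_sum]
    refine Finset.sum_congr rfl fun i _ => ?_
    rw [Polynomial.map_mul, Polynomial.map_pow, map_X, map_C]
    rfl
  rw [h1]
  have h2 : L.per (∑ i ∈ Finset.range ((ker P).natDegree + 1),
      C (((ker P).coeff i).eval β) * Polynomial.X ^ i) = ∑ i ∈ Finset.range ((ker P).natDegree + 1),
        L.per (C (((ker P).coeff i).eval β) * Polynomial.X ^ i) := map_sum L.perL _ _
  rw [h2]
  refine Finset.sum_congr rfl fun i _ => ?_
  rw [per_smul, eval_mul, eval_C]

/-- the integral of the derivative of `y / (x - β)` -/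
theorem exact_int {β : ℂ} (h : ∀ t, L.X t - β ≠ 0) :
    ∫ t in (0 : ℝ)..1, (P.eval (L.X t) * (derivative P).eval (L.X t) / (L.X t - β) -
      (P.eval (L.X t) ^ 2 - 4) / (L.X t - β) ^ 2) * L.om t = 0 := by
  have hd : ∀ t, HasDerivAt (fun t => L.y t / (L.X t - β))
      ((P.eval (L.X t) * (derivative P).eval (L.X t) / (L.X t - β) -
        (P.eval (L.X t) ^ 2 - 4) / (L.X t - β) ^ 2) * L.om t) t := by
    intro t
    refine ((L.dy t).div ((L.dX t).sub_const β) (h t)).congr_deriv ?_
    rw [← L.y_sq, L.ld_eq]
    unfold om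
    have h1 := h t
    have h2 := L.y_ne t
    field_simp
  have hc : Continuous fun t => (P.eval (L.X t) * (derivative P).eval (L.X t) / (L.X t - β) -
      (P.eval (L.X t) ^ 2 - 4) / (L.X t - β) ^ 2) * L.om t := by
    have c1 : Continuous fun t => L.X t - β := L.hX.continuous.sub continuous_const
    exact ((((L.cont_eval P).mul (L.cont_eval _)).div c1 h).sub
      ((((L.cont_eval P).pow 2).sub continuous_const).div (c1.pow 2)
        fun t => pow_ne_zero _ (h t))).mul L.cont_om
  rw [intervalIntegral.integral_eq_sub_of_hasDerivAt (fun t _ => hd t)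
    (hc.intervalIntegrable 0 1)]
  have e1 : L.X 1 = L.X 0 := by simpa using L.perX 0
  have e2 : L.y 1 = L.y 0 := by
    unfold y
    rw [show L.Z 1 = L.Z 0 by simpa using L.perZ 0]
  rw [e1, e2, sub_self]

/-- **The fundamental identity.** -/
theorem GP_eq {β : ℂ} (h : ∀ t, L.X t - β ≠ 0) :
    L.GP.eval β = (A1 P).eval β * L.f β + (A2 P).eval β * L.f2 β := by
  rw [GP_eval]
  have c1 : Continuous fun t => L.X t - β := L.hX.continuous.sub continuous_const
  have i1 : Continuous fun t => L.ld t / (L.X t - β) := L.cont_ld.div c1 h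
  have i2 : Continuous fun t => L.ld t / (L.X t - β) ^ 2 :=
    L.cont_ld.div (c1.pow 2) fun t => pow_ne_zero _ (h t)
  have i3 : Continuous fun t => (P.eval (L.X t) * (derivative P).eval (L.X t) / (L.X t - β) -
      (P.eval (L.X t) ^ 2 - 4) / (L.X t - β) ^ 2) * L.om t :=
    ((((L.cont_eval P).mul (L.cont_eval _)).div c1 h).sub
      ((((L.cont_eval P).pow 2).sub continuous_const).div (c1.pow 2)
        fun t => pow_ne_zero _ (h t))).mul L.cont_om
  have e : L.per ((ker P).map (evalRingHom β)) = ∫ t in (0 : ℝ)..1,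
      ((A1 P).eval β * (L.ld t / (L.X t - β)) + (A2 P).eval β * (L.ld t / (L.X t - β) ^ 2)) +
      (derivative P).eval β ^ 2 * ((P.eval (L.X t) * (derivative P).eval (L.X t) / (L.X t - β) -
      (P.eval (L.X t) ^ 2 - 4) / (L.X t - β) ^ 2) * L.om t) := by
    unfold per
    refine intervalIntegral.integral_congr fun t _ => ?_
    show _ * L.om t = _
    have h1 := ker_spec P β (L.X t)
    have h2 := h t
    rw [← eq_div_iff (pow_ne_zero 2 h2)] at h1
    rw [h1, L.ld_eq]
    field_simp
  rw [e, intervalIntegral.integral_add, intervalIntegral.integral_add,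
    intervalIntegral.integral_const_mul, intervalIntegral.integral_const_mul,
    intervalIntegral.integral_const_mul, L.exact_int h, mul_zero, add_zero]
  · rfl
  · exact (continuous_const.mul i1).intervalIntegrable _ _
  · exact (continuous_const.mul i2).intervalIntegrable _ _
  · exact ((continuous_const.mul i1).add (continuous_const.mul i2)).intervalIntegrable _ _
  · exact (continuous_const.mul i3).intervalIntegrable _ _

/-- the value at a critical point -/
theorem GP_crit {ξ : ℂ} (hξ : (derivative P).eval ξ = 0) {q : ℂ[X]}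
    (hq : derivative P = q * (Polynomial.X - C ξ)) : L.GP.eval ξ = (A1 P).eval ξ * L.per q := by
  rw [GP_eval, ← per_smul]
  congr 1
  -- equality of polynomials
  have h1 : (ker P).map (evalRingHom ξ) * (Polynomial.X - C ξ) ^ 2 =
      (C ((A1 P).eval ξ) * q) * (Polynomial.X - C ξ) ^ 2 := by
    refine Polynomial.funext fun x => ?_
    rw [eval_mul, eval_pow, eval_sub, eval_X, eval_C, ker_spec]
    have h2 : (derivative P).eval x = q.eval x * (x - ξ) := by
      rw [hq]
      simp
    have h3 : (A2 P).eval ξ = 0 := by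
      unfold A2
      rw [eval_mul, hξ, mul_zero]
    rw [h3, hξ, h2]
    simp only [eval_mul, eval_C, eval_pow, eval_sub, eval_X]
    ring
  exact mul_right_cancel₀ (pow_ne_zero 2 (X_sub_C_ne_zero ξ)) h1

end Lp

end Pool.Agent.Run7.h153.DG
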